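import Pool.Agent.RAY.Step

/-!
# RAYH: itineraries built piece by piece

`It q δ a b s w`: on `[a, b]` the path `δ` starts on the side `s` (`true` is the closed upper side),
passes the gates of the list `w` and avoids the boxes.
-/

set_option autoImplicit false

namespace Pool.Agent.RAY

/-- The point lies on the closed side `s` and outside the boxes. -/
def OnSide (q : ℤ) (s : Bool) (z : Pl) : Prop :=
  (∀ j, z ∉ rc q (1 / 16) j) ∧ (s = true → 0 ≤ z.2) ∧ (s = false → z.2 ≤ 0)

/-- Itinerary on an interval. -/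
inductive It (q : ℤ) (δ : ℝ → Pl) : ℝ → ℝ → Bool → List ℤ → Prop
  | nil {a b : ℝ} {s : Bool} (hab : a ≤ b) (h : ∀ t, a ≤ t → t ≤ b → OnSide q s (δ t)) :
      It q δ a b s []
  | cons {a b c : ℝ} {s : Bool} {g : ℤ} {w : List ℤ} (hab : a ≤ b)
      (h : ∀ t, a ≤ t → t ≤ b → OnSide q s (δ t)) (hg : δ b ∈ gtP q g)
      (hw : It q δ b c (!s) w) : It q δ a c s (g :: w)

namespace It

variable {q : ℤ} {δ : ℝ → Pl}

theorem le {a b : ℝ} {s : Bool} {w : List ℤ} (h : It q δ a b s w) : a ≤ b := by
  induction h with
  | nil hab _ => exact hab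
  | cons hab _ _ _ ih => exact hab.trans ih

/-- Add a piece in front, on the same side. -/
theorem pre {a b c : ℝ} {s : Bool} {w : List ℤ} (hab : a ≤ b)
    (h : ∀ t, a ≤ t → t ≤ b → OnSide q s (δ t)) (hw : It q δ b c s w) : It q δ a c s w := by
  cases hw with
  | nil hbc h' =>
    exact nil (hab.trans hbc) fun t h1 h2 => by
      rcases le_total t b with h3 | h3
      · exact h t h1 h3
      · exact h' t h3 h2
  | cons hbc h' hg hw =>
    refine cons (hab.trans hbc) (fun t h1 h2 => ?_) hg hw
    rcases le_total t b with h3 | h3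
    · exact h t h1 h3
    · exact h' t h3 h2

/-- Concatenation, the first word of even length. -/
theorem append {a b c : ℝ} {s : Bool} {w w' : List ℤ} (h : It q δ a b s w)
    (h' : It q δ b c (if Even w.length then s else !s) w') : It q δ a c s (w ++ w') := by
  induction h with
  | nil hab h =>
    refine pre hab h ?_
    simpa using h'
  | @cons a b d s g w hab h hg hw ih =>
    refine cons hab h hg (ih ?_)
    have e : (if Even (g :: w).length then s else !s) = if Even w.length then !s else !(!s) := by
      by_cases he : Even w.length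
      · simp [he, Nat.even_add_one]
      · simp [he, Nat.even_add_one]
    rwa [e] at h'

/-- A passage to the other side and back. -/
theorem cross {a b c d : ℝ} {s : Bool} {g g' : ℤ} (hab : a ≤ b) (hbc : b ≤ c) (hcd : c ≤ d)
    (h1 : ∀ t, a ≤ t → t ≤ b → OnSide q s (δ t)) (h2 : ∀ t, b ≤ t → t ≤ c → OnSide q (!s) (δ t))
    (h3 : ∀ t, c ≤ t → t ≤ d → OnSide q s (δ t)) (hg : δ b ∈ gtP q g) (hg' : δ c ∈ gtP q g') :
    It q δ a d s [g, g'] :=
  cons hab h1 hg (cons hbc h2 hg' (nil hcd fun t ht ht' => by simpa using h3 t ht ht'))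

/-- One passage. -/
theorem one {a b c : ℝ} {s : Bool} {g : ℤ} (hab : a ≤ b) (hbc : b ≤ c)
    (h1 : ∀ t, a ≤ t → t ≤ b → OnSide q s (δ t)) (h2 : ∀ t, b ≤ t → t ≤ c → OnSide q (!s) (δ t))
    (hg : δ b ∈ gtP q g) : It q δ a c s [g] :=
  cons hab h1 hg (nil hbc h2)

theorem exists_times {a b : ℝ} {s : Bool} {w : List ℤ} (h : It q δ a b s w) :
    ∃ τ : ℕ → ℝ, Monotone τ ∧ τ 0 = a ∧ τ (w.length + 1) = b ∧
      (∀ i (hi : i < w.length), δ (τ (i + 1)) ∈ gtP q (w[i])) ∧
      ∀ i ≤ w.length, ∀ t, τ i ≤ t → t ≤ τ (i + 1) →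
        OnSide q (if Even i then s else !s) (δ t) := by
  induction h with
  | @nil a b s hab h =>
    refine ⟨fun i => if i = 0 then a else b, ?_, by simp, by simp, by simp, ?_⟩
    · refine monotone_nat_of_le_succ fun i => ?_
      by_cases hi : i = 0
      · simp [hi, hab]
      · simp [hi]
    · intro i hi t h1 h2
      have : i = 0 := by simpa using hi
      subst this
      simpa using h t (by simpa using h1) (by simpa using h2)
  | @cons a b c s g w hab h hg hw ih =>
    obtain ⟨τ, hm, h0, h1, h2, h3⟩ := ih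
    refine ⟨fun i => Nat.casesOn i a τ, ?_, rfl, ?_, ?_, ?_⟩
    · refine monotone_nat_of_le_succ fun i => ?_
      cases i with
      | zero => show a ≤ τ 0; rw [h0]; exact hab
      | succ i => show τ i ≤ τ (i + 1); exact hm (Nat.le_succ i)
    · show τ (w.length + 1) = c; exact h1
    · intro i hi
      cases i with
      | zero => show δ (τ 0) ∈ gtP q g; rw [h0]; exact hg
      | succ i =>
        show δ (τ (i + 1)) ∈ gtP q (w[i]'(by simpa using hi))
        exact h2 i (by simpa using hi)
    · intro i hi t ht ht'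
      cases i with
      | zero =>
        have e : δ t = δ t := rfl
        have h4 : t ≤ τ 0 := ht'
        rw [h0] at h4
        simpa using h t ht h4
      | succ i =>
        have h4 := h3 i (by simpa using hi) t ht ht'
        have e : (if Even (i + 1) then s else !s) = if Even i then !s else !(!s) := by
          by_cases he : Even i
          · simp [he, Nat.even_add_one]
          · simp [he, Nat.even_add_one]
        rw [e]
        exact h4

/-- Itineraries on `[0, 1]` which start above. -/
theorem itinP {w : List ℤ} (h : It q δ 0 1 true w) : ItinP q w δ := by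
  obtain ⟨τ, hm, h0, h1, h2, h3⟩ := h.exists_times
  refine ⟨τ, hm, h0, h1, h2, fun i hi t ht ht' => ?_⟩
  obtain ⟨h4, h5, h6⟩ := h3 i hi t ht ht'
  refine ⟨h4, fun he => h5 (by simp [he]), fun he => h6 (by simp [he])⟩

end It

open Classical in
/-- The word of the first `n` slots to the right of `u`. -/
noncomputable def WW (P : ℕ → Prop) (u : ℤ) (n : ℕ) : List ℤ :=
  ((List.range n).filter fun s : ℕ => P s).flatMap fun s : ℕ => [2 * (u + (s : ℤ)), 2 * (u + (s : ℤ)) + 1]

theorem WW_zero (P : ℕ → Prop) (u : ℤ) : WW P u 0 = [] := by simp [WW]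

theorem WW_succ_pos {P : ℕ → Prop} {n : ℕ} (h : P n) (u : ℤ) :
    WW P u (n + 1) = WW P u n ++ [2 * (u + n), 2 * (u + n) + 1] := by
  unfold WW
  rw [List.range_succ, List.filter_append, List.flatMap_append]
  simp [h]

theorem WW_succ_neg {P : ℕ → Prop} {n : ℕ} (h : ¬ P n) (u : ℤ) : WW P u (n + 1) = WW P u n := by
  unfold WW
  rw [List.range_succ, List.filter_append, List.flatMap_append]
  simp [h]

theorem even_length_WW (P : ℕ → Prop) (u : ℤ) (n : ℕ) : Even (WW P u n).length := by
  induction n with
  | zero => simp [WW_zero]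
  | succ n ih =>
    by_cases h : P n
    · rw [WW_succ_pos h, List.length_append]
      exact ih.add (by simp)
    · rwa [WW_succ_neg h]

/-- The word `omega` as a word over the list. -/
theorem omega_flat (q : ℕ) (S : List ℕ) (u : ℤ) : omega q S u =
    (S.flatMap fun s : ℕ => [2 * (u + (s : ℤ)), 2 * (u + (s : ℤ)) + 1]) ++ [2 * (u + q)] := by
  unfold omega
  congr 1
  induction S with
  | nil => rfl
  | cons a S ih =>
    simp only [List.bind_eq_flatMap, List.flatMap_cons, List.pure_def] at ih ⊢
    simp [ih]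

/-- The word `omega`. -/
theorem omega_eq (L : Lv) (u : ℤ) : omega L.next.q.toNat (SL L) u
    = WW (fun s => L.Sg (s : ℤ)) u L.next.q.toNat ++ [2 * (u + L.next.q)] := by
  have h := Int.toNat_of_nonneg L.next.q_pos.le
  rw [omega_flat, h]
  rfl

end Pool.Agent.RAY
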