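import Pool.Agent.RAYH.Maps
import Pool.Agent.RAYH.Itin

/-!
# RAYH: the arms (owner of the proofs: helper27)

`δ t = Ψ (X₀ / q', 1 - 2 t)` with `X₀ = u v - 19/16` resp. `X₀ = u v - 21/64`; then
`g (δ t) = (η X₀ / q, comp (1 - 2 t))`.  For `1 - 2 t ≥ 1/4` the point `δ t` is on the vertical line
at `X₀`, for `1/8 ≤ 1 - 2 t ≤ 1/4` its slot coordinate runs from `X₀` to `X₀ + q' + 15/16` and it is
lowered by `b / 2` exactly over the slots `u v + s`, `s` in the semigroup; for `1 - 2 t ≤ 1/8` it is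
on a vertical line in the last gate.
-/

set_option autoImplicit false

namespace Pool.Agent.RAY

namespace St

variable (L : Lv) {w : ℝ} (h0 : 0 < w) (h1 : w ≤ 1 / 16)

/-- The pattern of a label between the zones of the arcs `v - 1` and `v`. -/
theorem ph_pattern {X : ℝ} {v : ℤ} (h1 : L.u (v - 1) - 7 / 32 ≤ X) (h2 : X ≤ L.u v - 9 / 32)
    (n : ℤ) : ph (X - L.u (L.vw n)) = 1 ∧ L.Sp (n - L.u v) ∨
      ph (X - L.u (L.vw n)) = 0 ∧ ¬ L.Sp (n - L.u v) := by
  by_cases h : L.Sp (n - L.u v)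
  · left
    refine ⟨ph_eq_one ?_, h⟩
    rw [L.vw_spec] at h
    have h3 : (L.u v : ℝ) ≤ L.u (L.vw n) := by exact_mod_cast L.u_strictMono.monotone h
    linarith
  · right
    refine ⟨ph_eq_zero ?_, h⟩
    rw [L.vw_spec] at h
    have h4 : L.vw n ≤ v - 1 := by omega
    have h3 : (L.u (L.vw n) : ℝ) ≤ L.u (v - 1) := by exact_mod_cast L.u_strictMono.monotone h4
    linarith

/-! ### Avoiding the boxes -/

theorem onSide_of_high {q : ℤ} {z : Pl} (h : 1 / 16 < z.2) : OnSide q true z := by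
  refine ⟨fun j hj => ?_, fun _ => by linarith, fun h' => by simp at h'⟩
  have := (le_abs_self z.2).trans hj.2
  linarith

/-- Avoiding the boxes near an integer slot. -/
theorem avoid {q : ℤ} {z : Pl} {n : ℤ} (h : |q * z.1 - n| < 7 / 16)
    (h' : 1 / 16 < |q * z.1 - n| ∨ 1 / 16 < |z.2|) (j : ℤ) : z ∉ rc q (1 / 16) j := by
  rintro ⟨h2, h3⟩
  by_cases hj : j = 2 * n
  · subst hj
    have e : (((2 * n : ℤ) : ℝ) / 2) = n := by push_cast; ring
    rw [e] at h2
    rcases h' with h' | h' <;> linarith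
  · have h4 : (1 : ℤ) ≤ |j - 2 * n| := Int.one_le_abs (sub_ne_zero.2 hj)
    have h5 : (1 : ℝ) ≤ |(j : ℝ) - 2 * n| := by exact_mod_cast h4
    have h6 : |(j : ℝ) - 2 * n| ≤ 2 * |q * z.1 - n| + 2 * |q * z.1 - j / 2| := by
      rcases abs_cases ((j : ℝ) - 2 * n) with ⟨h7, _⟩ | ⟨h7, _⟩
      · have h8 := le_abs_self (q * z.1 - n)
        have h9 := neg_abs_le (q * z.1 - (j : ℝ) / 2)
        rw [h7]; linarith
      · have h8 := neg_abs_le (q * z.1 - n)
        have h9 := le_abs_self (q * z.1 - (j : ℝ) / 2)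
        rw [h7]; linarith
    linarith

/-! ### The vertical lines of the labels -/

/-- The length of the run. -/
noncomputable def cc : ℝ := L.next.q + 15 / 16

theorem cc_pos : 16 < cc L := by
  have h := L.next_q_ge
  have h2 := L.q_pos
  have h3 : 16 ≤ L.next.q := by nlinarith
  have h4 : (16 : ℝ) ≤ L.next.q := by exact_mod_cast h3
  unfold cc
  linarith

/-- The arm. -/
noncomputable def arm (X : ℝ) (t : ℝ) : Pl := Ps L (X / L.next.q, 1 - 2 * t)

theorem continuous_arm (X : ℝ) : Continuous (arm L X) := by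
  unfold arm
  exact (Ps L).continuous.comp (by fun_prop)

/-- The slot coordinate of the arm. -/
noncomputable def xs (X t : ℝ) : ℝ := X + sg L (1 - 2 * t)

theorem arm_fst (X t : ℝ) : L.next.q * (arm L X t).1 = xs L X t := by
  have hq := q_pos' L.next
  unfold arm xs
  rw [Ps_apply]
  simp only
  field_simp

theorem arm_snd (X t : ℝ) : (arm L X t).2 =
    (1 - 2 * t) - 1 / 2 * ch (1 - 2 * t) * be L (xs L X t) X := by
  have hq := q_pos' L.next
  unfold arm xs
  rw [Ps_apply]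
  simp only
  rw [mul_div_cancel₀ _ hq.ne']

/-- The time at which the arm is at the slot coordinate `x`. -/
noncomputable def tt (X x : ℝ) : ℝ := 3 / 8 + (x - X) / (16 * cc L)

theorem tt_mono (X : ℝ) {x y : ℝ} (h : x ≤ y) : tt L X x ≤ tt L X y := by
  have hc := cc_pos L
  unfold tt
  have := div_le_div_of_nonneg_right (sub_le_sub_right h X) (by linarith : 0 ≤ 16 * cc L)
  linarith

theorem tt_start (X : ℝ) : tt L X X = 3 / 8 := by unfold tt; simp

theorem tt_end (X : ℝ) : tt L X (X + cc L) = 7 / 16 := by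
  have hc := cc_pos L
  unfold tt
  rw [add_sub_cancel_left]
  field_simp
  norm_num

/-- Comparison of times. -/
theorem tt_le_iff (X : ℝ) {x t : ℝ} : tt L X x ≤ t ↔ x ≤ X + cc L * (16 * t - 6) := by
  have hc := cc_pos L
  unfold tt
  rw [← sub_nonneg, ← sub_nonneg (b := x)]
  have e : X + cc L * (16 * t - 6) - x = (16 * cc L) * (t - (3 / 8 + (x - X) / (16 * cc L))) := by
    field_simp
    ring
  rw [e]
  constructor
  · intro h; positivity
  · intro h
    exact nonneg_of_mul_nonneg_right h (by linarith)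

theorem le_tt_iff (X : ℝ) {x t : ℝ} : t ≤ tt L X x ↔ X + cc L * (16 * t - 6) ≤ x := by
  have hc := cc_pos L
  unfold tt
  rw [← sub_nonneg, ← sub_nonneg (a := x)]
  have e : x - (X + cc L * (16 * t - 6)) = (16 * cc L) * (3 / 8 + (x - X) / (16 * cc L) - t) := by
    field_simp
    ring
  rw [e]
  constructor
  · intro h; positivity
  · intro h
    exact nonneg_of_mul_nonneg_right h (by linarith)

theorem xs_mid (X : ℝ) {t : ℝ} (h2 : 3 / 8 ≤ t) (h3 : t ≤ 7 / 16) :
    xs L X t = X + cc L * (16 * t - 6) := by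
  unfold xs sg cc
  rw [cl_of_mem (by linarith) (by linarith)]
  ring

theorem xs_start (X : ℝ) {t : ℝ} (h : t ≤ 3 / 8) : xs L X t = X := by
  unfold xs
  rw [sg_top L (by linarith), add_zero]

theorem xs_end (X : ℝ) {t : ℝ} (h : 7 / 16 ≤ t) : xs L X t = X + cc L := by
  unfold xs cc
  rw [sg_bot L (by linarith)]

/-- The slot coordinate between two times. -/
theorem xs_between {X x y t : ℝ} (hx : X ≤ x) (hy : y ≤ X + cc L) (h2 : tt L X x ≤ t)
    (h3 : t ≤ tt L X y) : x ≤ xs L X t ∧ xs L X t ≤ y ∧ 3 / 8 ≤ t ∧ t ≤ 7 / 16 := by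
  have h4 : 3 / 8 ≤ t := by rw [← tt_start L X]; exact (tt_mono L X hx).trans h2
  have h5 : t ≤ 7 / 16 := by rw [← tt_end L X]; exact h3.trans (tt_mono L X hy)
  rw [xs_mid L X h4 h5]
  exact ⟨(tt_le_iff L X).1 h2, (le_tt_iff L X).1 h3, h4, h5⟩

variable {L} {X : ℝ} {v : ℤ}

/-- Away from the slots the arm is at the height `1 - 2 t`. -/
theorem arm_snd_of_far {t : ℝ} {n : ℤ} (h2 : 3 / 16 ≤ |xs L X t - n|)
    (h3 : |xs L X t - n| < 13 / 16) : (arm L X t).2 = 1 - 2 * t := by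
  rw [arm_snd, be_eq_zero L X h2 h3, mul_zero, sub_zero]

/-- Below a slot which is not in the pattern the arm is at the height `1 - 2 t`. -/
theorem arm_snd_of_not (hX : L.u (v - 1) - 7 / 32 ≤ X) (hX' : X ≤ L.u v - 9 / 32) {t : ℝ} {n : ℤ}
    (h3 : |xs L X t - n| < 13 / 16) (hn : ¬ L.Sp (n - L.u v)) : (arm L X t).2 = 1 - 2 * t := by
  rcases ph_pattern L hX hX' n with h | h
  · exact absurd h.2 hn
  · rw [arm_snd, be_near L X h3, h.1, mul_zero, mul_zero, sub_zero]

/-- Below a slot in the pattern. -/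
theorem arm_snd_of_mem (hX : L.u (v - 1) - 7 / 32 ≤ X) (hX' : X ≤ L.u v - 9 / 32) {t : ℝ} {n : ℤ}
    (h3 : |xs L X t - n| < 13 / 16) (hn : L.Sp (n - L.u v)) (ht : t ≤ 1 / 2) :
    (arm L X t).2 = 1 - 2 * t - 1 / 2 * bb (xs L X t - n) := by
  rcases ph_pattern L hX hX' n with h | h
  · rw [arm_snd, be_near L X h3, h.1, ch_eq_one (by linarith)]
    ring
  · exact absurd hn h.2

/-- The arm below a slot of the pattern. -/
theorem arm_near (hX : L.u (v - 1) - 7 / 32 ≤ X) (hX' : X ≤ L.u v - 9 / 32) {n : ℤ}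
    (hn : L.Sp (n - L.u v)) (ha : X ≤ n - 3 / 16) (hb : (n : ℝ) + 3 / 16 ≤ X + cc L) {t : ℝ}
    (ht : tt L X (n - 3 / 16) ≤ t) (ht' : t ≤ tt L X (n + 3 / 16)) :
    n - 3 / 16 ≤ xs L X t ∧ xs L X t ≤ n + 3 / 16 ∧ 3 / 8 ≤ t ∧ t ≤ 7 / 16 ∧
      xs L X t = X + cc L * (16 * t - 6) ∧
      (arm L X t).2 = 1 - 2 * t - 1 / 2 * bb (xs L X t - n) := by
  obtain ⟨h2, h3, h4, h5⟩ := xs_between L ha hb ht ht'
  refine ⟨h2, h3, h4, h5, xs_mid L X h4 h5, ?_⟩
  exact arm_snd_of_mem hX hX' (by rw [abs_lt]; constructor <;> linarith) hn (by linarith)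

/-- The descent. -/
theorem exists_left (hX : L.u (v - 1) - 7 / 32 ≤ X) (hX' : X ≤ L.u v - 9 / 32) {n : ℤ}
    (hn : L.Sp (n - L.u v)) (ha : X ≤ n - 3 / 16) (hb : (n : ℝ) + 3 / 16 ≤ X + cc L) :
    ∃ tl : ℝ, tt L X (n - 3 / 16) ≤ tl ∧ tl ≤ tt L X (n - 1 / 16) ∧
      ∀ t, tt L X (n - 3 / 16) ≤ t → t ≤ tt L X (n - 1 / 16) →
      (arm L X t).2 = (2 + 64 * cc L) * (tl - t) ∧ xs L X t ≤ n - 1 / 16 := by
  have hc := cc_pos L
  set c := cc L with hcdef
  set tl : ℝ := (1 / 4 + 4 * (n - X) + 24 * c) / (2 + 64 * c) with htl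
  have htl' : tl * (2 + 64 * c) = 1 / 4 + 4 * (n - X) + 24 * c := by
    rw [htl]; exact div_mul_cancel₀ _ (by linarith)
  clear_value tl
  have e1 : (X + c * (16 * tl - 6)) * 4 = 1 / 4 + 4 * n - 2 * tl := by
    linear_combination htl'
  refine ⟨tl, ?_, ?_, fun t ht ht' => ?_⟩
  · rw [tt_le_iff, ← hcdef]
    by_contra hcon
    push Not at hcon
    have e2 : tl ≤ 7 / 16 := by
      have h5 : c * (16 * tl - 6) < c * 1 := by linarith
      have := lt_of_mul_lt_mul_left h5 (by linarith)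
      linarith
    linarith
  · rw [le_tt_iff, ← hcdef]
    by_contra hcon
    push Not at hcon
    have e2 : 3 / 8 ≤ tl := by
      have h5 : c * 0 < c * (16 * tl - 6) := by linarith
      have := lt_of_mul_lt_mul_left h5 (by linarith)
      linarith
    linarith
  · obtain ⟨h2, h3, h4, h5, h6, h7⟩ := arm_near hX hX' hn ha hb ht
      (ht'.trans (tt_mono L X (by linarith)))
    have h8 : xs L X t ≤ n - 1 / 16 := by
      rw [h6]; exact (le_tt_iff L X).1 ht'
    refine ⟨?_, h8⟩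
    have h9 : bb (xs L X t - n) = 8 * (3 / 16 - (n - xs L X t)) := by
      unfold bb
      rw [abs_of_nonpos (by linarith), cl_of_mem (by linarith) (by linarith)]
      ring
    rw [h7, h9, h6]
    linear_combination -htl'

/-- The ascent. -/
theorem exists_right (hX : L.u (v - 1) - 7 / 32 ≤ X) (hX' : X ≤ L.u v - 9 / 32) {n : ℤ}
    (hn : L.Sp (n - L.u v)) (ha : X ≤ n - 3 / 16) (hb : (n : ℝ) + 3 / 16 ≤ X + cc L) :
    ∃ tr : ℝ, tt L X (n + 1 / 16) ≤ tr ∧ tr ≤ tt L X (n + 3 / 16) ∧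
      ∀ t, tt L X (n + 1 / 16) ≤ t → t ≤ tt L X (n + 3 / 16) →
      (arm L X t).2 = (64 * cc L - 2) * (t - tr) ∧ n + 1 / 16 ≤ xs L X t := by
  have hc := cc_pos L
  set c := cc L with hcdef
  set tr : ℝ := (24 * c + 4 * (n - X) - 1 / 4) / (64 * c - 2) with htr
  have htr' : tr * (64 * c - 2) = 24 * c + 4 * (n - X) - 1 / 4 := by
    rw [htr]; exact div_mul_cancel₀ _ (by linarith)
  clear_value tr
  have e1 : (X + c * (16 * tr - 6)) * 4 = 2 * tr + 4 * n - 1 / 4 := by
    linear_combination htr'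
  refine ⟨tr, ?_, ?_, fun t ht ht' => ?_⟩
  · rw [tt_le_iff, ← hcdef]
    by_contra hcon
    push Not at hcon
    have e2 : 3 / 8 ≤ tr := by
      by_contra h6
      push Not at h6
      have h7 : tr * (64 * c - 2) < 3 / 8 * (64 * c - 2) :=
        mul_lt_mul_of_pos_right h6 (by linarith)
      linarith
    linarith
  · rw [le_tt_iff, ← hcdef]
    by_contra hcon
    push Not at hcon
    have e2 : tr ≤ 1 / 2 := by
      by_contra h6
      push Not at h6
      have h7 : 1 / 2 * (64 * c - 2) < tr * (64 * c - 2) :=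
        mul_lt_mul_of_pos_right h6 (by linarith)
      linarith
    linarith
  · obtain ⟨h2, h3, h4, h5, h6, h7⟩ := arm_near hX hX' hn ha hb
      ((tt_mono L X (by linarith)).trans ht) ht'
    have h8 : n + 1 / 16 ≤ xs L X t := by
      rw [h6]; exact (tt_le_iff L X).1 ht
    refine ⟨?_, h8⟩
    have h9 : bb (xs L X t - n) = 8 * (3 / 16 - (xs L X t - n)) := by
      unfold bb
      rw [abs_of_nonneg (by linarith), cl_of_mem (by linarith) (by linarith)]
    rw [h7, h9, h6]
    linear_combination htr'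

/-- Below the box. -/
theorem arm_mid (hX : L.u (v - 1) - 7 / 32 ≤ X) (hX' : X ≤ L.u v - 9 / 32) {n : ℤ}
    (hn : L.Sp (n - L.u v)) (ha : X ≤ n - 3 / 16) (hb : (n : ℝ) + 3 / 16 ≤ X + cc L) {t : ℝ}
    (ht : tt L X (n - 1 / 16) ≤ t) (ht' : t ≤ tt L X (n + 1 / 16)) :
    (arm L X t).2 ≤ -(1 / 4) := by
  obtain ⟨h2, h3, h4, h5, h6, h7⟩ := arm_near hX hX' hn ha hb
    ((tt_mono L X (by linarith)).trans ht) (ht'.trans (tt_mono L X (by linarith)))
  have h8 : xs L X t ≤ n + 1 / 16 := by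
    rw [h6]; exact (le_tt_iff L X).1 ht'
  have h9 : n - 1 / 16 ≤ xs L X t := by
    rw [h6]; exact (tt_le_iff L X).1 ht
  rw [h7, bb_eq_one (by rw [abs_le]; constructor <;> linarith)]
  linarith

/-- The arm avoids the boxes. -/
theorem arm_avoid (hX : L.u (v - 1) - 7 / 32 ≤ X) (hX' : X ≤ L.u v - 9 / 32) {n : ℤ}
    (hn : L.Sp (n - L.u v)) (ha : X ≤ n - 3 / 16) (hb : (n : ℝ) + 3 / 16 ≤ X + cc L) {t : ℝ}
    (ht : tt L X (n - 3 / 16) ≤ t) (ht' : t ≤ tt L X (n + 3 / 16)) (j : ℤ) :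
    arm L X t ∉ rc L.next.q (1 / 16) j := by
  obtain ⟨h2, h3, h4, h5, h6, h7⟩ := arm_near hX hX' hn ha hb ht ht'
  refine avoid (n := n) ?_ ?_ j
  · rw [arm_fst, abs_lt]; constructor <;> linarith
  · rw [arm_fst]
    by_cases h8 : 1 / 16 < |xs L X t - n|
    · exact Or.inl h8
    · right
      push Not at h8
      rw [h7, bb_eq_one h8, abs_of_nonpos (by linarith)]
      linarith

/-- The passage below a slot of the pattern. -/
theorem it_cross (hX : L.u (v - 1) - 7 / 32 ≤ X) (hX' : X ≤ L.u v - 9 / 32) {n : ℤ}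
    (hn : L.Sp (n - L.u v)) (ha : X ≤ n - 3 / 16) (hb : (n : ℝ) + 3 / 16 ≤ X + cc L) :
    It L.next.q (arm L X) (tt L X (n - 3 / 16)) (tt L X (n + 3 / 16)) true [2 * n, 2 * n + 1] := by
  have hc := cc_pos L
  obtain ⟨tl, l1, l2, hl⟩ := exists_left hX hX' hn ha hb
  obtain ⟨tr, l3, l4, hr⟩ := exists_right hX hX' hn ha hb
  have l5 : tt L X (n - 1 / 16) ≤ tt L X (n + 1 / 16) := tt_mono L X (by linarith)
  have l6 : tl ≤ tr := l2.trans (l5.trans l3)
  refine It.cross l1 l6 l4 (fun t ht ht' => ?_) (fun t ht ht' => ?_) (fun t ht ht' => ?_) ?_ ?_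
  · refine ⟨arm_avoid hX hX' hn ha hb ht (ht'.trans (l6.trans l4)), fun _ => ?_,
      fun h => by simp at h⟩
    rw [(hl t ht (ht'.trans l2)).1]
    exact mul_nonneg (by linarith) (by linarith)
  · refine ⟨arm_avoid hX hX' hn ha hb (l1.trans ht) (ht'.trans l4), fun h => by simp at h,
      fun _ => ?_⟩
    rcases le_total t (tt L X (n - 1 / 16)) with h8 | h8
    · rw [(hl t (l1.trans ht) h8).1]
      exact mul_nonpos_of_nonneg_of_nonpos (by linarith) (by linarith)
    · rcases le_total t (tt L X (n + 1 / 16)) with h9 | h9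
      · have := arm_mid hX hX' hn ha hb h8 h9; linarith
      · rw [(hr t h9 (ht'.trans l4)).1]
        exact mul_nonpos_of_nonneg_of_nonpos (by linarith) (by linarith)
  · refine ⟨arm_avoid hX hX' hn ha hb (l1.trans (l6.trans ht)) ht', fun _ => ?_,
      fun h => by simp at h⟩
    rw [(hr t (l3.trans ht) ht').1]
    exact mul_nonneg (by linarith) (by linarith)
  · obtain ⟨h9, h11⟩ := hl tl l1 l2
    obtain ⟨h2, h3, -⟩ := arm_near hX hX' hn ha hb l1 (l6.trans l4)
    have h12 : (arm L X tl).2 = 0 := by rw [h9]; ring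
    have h13 := arm_avoid hX hX' hn ha hb l1 (l6.trans l4) (2 * n)
    refine ⟨?_, ?_, h12⟩
    · rw [arm_fst]; push_cast; linarith
    · rw [arm_fst]
      push_cast
      by_contra hcon
      push Not at hcon
      apply h13
      refine ⟨?_, by rw [h12]; norm_num⟩
      rw [arm_fst, abs_le]
      push_cast
      constructor <;> linarith
  · obtain ⟨h9, h11⟩ := hr tr l3 l4
    obtain ⟨h2, h3, -⟩ := arm_near hX hX' hn ha hb (l1.trans l6) l4
    have h12 : (arm L X tr).2 = 0 := by rw [h9]; ring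
    have h13 := arm_avoid hX hX' hn ha hb (l1.trans l6) l4 (2 * n)
    refine ⟨?_, ?_, h12⟩
    · rw [arm_fst]
      push_cast
      by_contra hcon
      push Not at hcon
      apply h13
      refine ⟨?_, by rw [h12]; norm_num⟩
      rw [arm_fst, abs_le]
      push_cast
      constructor <;> linarith
    · rw [arm_fst]; push_cast; linarith

/-- The way between two slots. -/
theorem onSide_gap {n : ℤ} (ha : X ≤ n + 3 / 16) (hb : (n : ℝ) + 13 / 16 ≤ X + cc L) {t : ℝ}
    (h2 : tt L X (n + 3 / 16) ≤ t) (h3 : t ≤ tt L X (n + 13 / 16)) :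
    OnSide L.next.q true (arm L X t) := by
  obtain ⟨h4, h5, h6, h7⟩ := xs_between L ha hb h2 h3
  refine onSide_of_high ?_
  have h8 : (arm L X t).2 = 1 - 2 * t := by
    rcases le_total (xs L X t) (n + 1 / 2) with h8 | h8
    · refine arm_snd_of_far (n := n) ?_ ?_
      · rw [abs_of_nonneg (by linarith)]; linarith
      · rw [abs_of_nonneg (by linarith)]; linarith
    · refine arm_snd_of_far (n := n + 1) ?_ ?_
      · push_cast; rw [abs_of_nonpos (by linarith)]; linarith
      · push_cast; rw [abs_of_nonpos (by linarith)]; linarith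
  rw [h8]; linarith

/-- The way over a slot which is not in the pattern. -/
theorem onSide_not (hX : L.u (v - 1) - 7 / 32 ≤ X) (hX' : X ≤ L.u v - 9 / 32) {n : ℤ}
    (hn : ¬ L.Sp (n - L.u v)) (ha : X ≤ n - 3 / 16) (hb : (n : ℝ) + 3 / 16 ≤ X + cc L) {t : ℝ}
    (h2 : tt L X (n - 3 / 16) ≤ t) (h3 : t ≤ tt L X (n + 3 / 16)) :
    OnSide L.next.q true (arm L X t) := by
  obtain ⟨h4, h5, h6, h7⟩ := xs_between L ha hb h2 h3
  refine onSide_of_high ?_
  rw [arm_snd_of_not hX hX' (n := n) (by rw [abs_lt]; constructor <;> linarith) hn]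
  linarith

/-- The beginning. -/
theorem onSide_start (hX : L.u (v - 1) - 7 / 32 ≤ X) (hX' : X ≤ L.u v - 9 / 32)
    (hX2 : L.u v - 19 / 16 ≤ X) {t : ℝ} (h3 : t ≤ tt L X (L.u v - 3 / 16)) :
    OnSide L.next.q true (arm L X t) := by
  have hc := cc_pos L
  have h4 : xs L X t ≤ L.u v - 3 / 16 ∧ X ≤ xs L X t ∧ t ≤ 7 / 16 := by
    rcases le_total t (3 / 8) with h | h
    · rw [xs_start L X h]
      exact ⟨by linarith, le_rfl, by linarith⟩
    · obtain ⟨h5, h6, h7, h8⟩ := xs_between L (x := X) (y := L.u v - 3 / 16) (t := t) le_rfl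
        (by linarith) (by rw [tt_start]; exact h) h3
      exact ⟨h6, h5, h8⟩
  obtain ⟨h4, h5, h6⟩ := h4
  refine onSide_of_high ?_
  have h8 : (arm L X t).2 = 1 - 2 * t := by
    rcases le_total (xs L X t) (L.u v - 1 / 2) with h8 | h8
    · refine arm_snd_of_not hX hX' (n := L.u v - 1) ?_ ?_
      · push_cast; rw [abs_lt]; constructor <;> linarith
      · intro h
        have := h.nonneg
        omega
    · refine arm_snd_of_far (n := L.u v) ?_ ?_
      · rw [abs_of_nonpos (by linarith)]; linarith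
      · rw [abs_of_nonpos (by linarith)]; linarith
  rw [h8]; linarith

/-- The itinerary up to the slot `u v + N`. -/
theorem it_main (hX : L.u (v - 1) - 7 / 32 ≤ X) (hX' : X ≤ L.u v - 9 / 32)
    (hX2 : L.u v - 19 / 16 ≤ X) (N : ℕ) (hN : (N : ℤ) ≤ L.next.q)
    (hb : (L.u v : ℝ) + N - 3 / 16 ≤ X + cc L) :
    It L.next.q (arm L X) 0 (tt L X (L.u v + N - 3 / 16)) true
      (WW (fun s => L.Sg (s : ℤ)) (L.u v) N) := by
  have hc := cc_pos L
  induction N with
  | zero =>
    rw [WW_zero, Nat.cast_zero, add_zero]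
    refine It.nil ?_ fun t _ ht => onSide_start hX hX' hX2 ht
    have h2 : tt L X X ≤ tt L X (L.u v - 3 / 16) := tt_mono L X (by linarith)
    rw [tt_start] at h2
    linarith
  | succ N ih =>
    push_cast at hb hN
    have ih' := ih (by omega) (by linarith)
    have hn : ((L.u v + (N : ℤ) : ℤ) : ℝ) = L.u v + N := by push_cast; ring
    have hN0 : (0 : ℝ) ≤ N := Nat.cast_nonneg N
    have e1 : (L.u v : ℝ) + (N + 1 : ℕ) - 3 / 16 = ((L.u v + (N : ℤ) : ℤ) : ℝ) + 13 / 16 := by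
      rw [hn]; push_cast; ring
    have e2 : (L.u v : ℝ) + N - 3 / 16 = ((L.u v + (N : ℤ) : ℤ) : ℝ) - 3 / 16 := by rw [hn]
    rw [e1]
    rw [e2] at ih'
    by_cases hP : L.Sg (N : ℤ)
    · rw [WW_succ_pos (P := fun s => L.Sg (s : ℤ)) hP]
      refine ih'.append ?_
      rw [if_pos (even_length_WW _ _ _)]
      have h5 := it_cross hX hX' (n := L.u v + N) (by rw [add_sub_cancel_left]; exact Or.inl hP)
        (by rw [hn]; linarith) (by rw [hn]; linarith)
      have h6 : It L.next.q (arm L X) (tt L X (((L.u v + (N : ℤ) : ℤ) : ℝ) + 3 / 16))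
          (tt L X (((L.u v + (N : ℤ) : ℤ) : ℝ) + 13 / 16)) true [] := by
        refine It.nil (tt_mono L X (by linarith)) fun t ht ht' => ?_
        exact onSide_gap (by rw [hn]; linarith) (by rw [hn]; linarith) ht ht'
      have h7 := h5.append (w' := []) (by simpa using h6)
      simpa using h7
    · rw [WW_succ_neg (P := fun s => L.Sg (s : ℤ)) hP]
      have h6 : It L.next.q (arm L X) (tt L X (((L.u v + (N : ℤ) : ℤ) : ℝ) - 3 / 16))
          (tt L X (((L.u v + (N : ℤ) : ℤ) : ℝ) + 13 / 16)) true [] := by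
        refine It.nil (tt_mono L X (by linarith)) fun t ht ht' => ?_
        rcases le_total t (tt L X (((L.u v + (N : ℤ) : ℤ) : ℝ) + 3 / 16)) with h | h
        · refine onSide_not hX hX' (n := L.u v + N) ?_ (by rw [hn]; linarith)
            (by rw [hn]; linarith) ht h
          rw [add_sub_cancel_left]
          rintro (h8 | h8)
          · exact hP h8
          · omega
        · exact onSide_gap (by rw [hn]; linarith) (by rw [hn]; linarith) h ht'
      have h7 := ih'.append (w' := []) (by rw [if_pos (even_length_WW _ _ _)]; exact h6)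
      simpa using h7

/-- The whole itinerary. -/
theorem it_full (hX : L.u (v - 1) - 7 / 32 ≤ X) (hX' : X ≤ L.u v - 9 / 32)
    (hX2 : L.u v - 19 / 16 ≤ X) (N : ℕ) (hN : (N : ℤ) ≤ L.next.q) (hP : L.Sg (N : ℤ))
    {d : ℝ} (hd : X + cc L = L.u v + N + 1 - d) (hd1 : 3 / 16 ≤ d) (hd2 : d < 7 / 16) :
    It L.next.q (arm L X) 0 1 true
      (WW (fun s => L.Sg (s : ℤ)) (L.u v) (N + 1) ++ [2 * (L.u v + N + 1)]) := by
  have hc := cc_pos L
  have hN0 : (0 : ℝ) ≤ N := Nat.cast_nonneg N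
  have hn : ((L.u v + (N : ℤ) : ℤ) : ℝ) = L.u v + N := by push_cast; ring
  have h2 := it_main hX hX' hX2 N hN (by linarith)
  have e2 : (L.u v : ℝ) + N - 3 / 16 = ((L.u v + (N : ℤ) : ℤ) : ℝ) - 3 / 16 := by rw [hn]
  rw [e2] at h2
  have h5 := it_cross hX hX' (n := L.u v + N) (by rw [add_sub_cancel_left]; exact Or.inl hP)
    (by rw [hn]; linarith) (by rw [hn]; linarith)
  have h6 : tt L X (((L.u v + (N : ℤ) : ℤ) : ℝ) + 3 / 16) ≤ 7 / 16 := by
    rw [← tt_end L X]
    exact tt_mono L X (by rw [hn]; linarith)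
  have h6' : 3 / 8 ≤ tt L X (((L.u v + (N : ℤ) : ℤ) : ℝ) + 3 / 16) := by
    rw [← tt_start L X]
    exact tt_mono L X (by rw [hn]; linarith)
  have hlast : ∀ t, 7 / 16 ≤ t → (∀ j, arm L X t ∉ rc L.next.q (1 / 16) j) ∧
      (arm L X t).2 = 1 - 2 * t := by
    intro t ht
    have e := xs_end L X ht
    constructor
    · refine avoid (n := L.u v + N + 1) ?_ (Or.inl ?_)
      · rw [arm_fst, e, hd]; push_cast; rw [abs_lt]; constructor <;> linarith
      · rw [arm_fst, e, hd]; push_cast; rw [abs_of_nonpos (by linarith)]; linarith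
    · refine arm_snd_of_far (n := L.u v + N + 1) ?_ ?_
      · rw [e, hd]; push_cast; rw [abs_of_nonpos (by linarith)]; linarith
      · rw [e, hd]; push_cast; rw [abs_of_nonpos (by linarith)]; linarith
  have h7 : It L.next.q (arm L X) (tt L X (((L.u v + (N : ℤ) : ℤ) : ℝ) + 3 / 16)) 1 true
      [2 * (L.u v + N + 1)] := by
    refine It.one (b := 1 / 2) (by linarith) (by norm_num) (fun t ht ht' => ?_)
      (fun t ht ht' => ?_) ?_
    · rcases le_total t (7 / 16) with h | h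
      · rw [← tt_end L X] at h
        obtain ⟨h8, h9, h10, h11⟩ := xs_between L (by rw [hn]; linarith) le_rfl ht h
        rw [hn] at h8
        refine onSide_of_high ?_
        have h12 : (arm L X t).2 = 1 - 2 * t := by
          rcases le_total (xs L X t) (L.u v + N + 1 / 2) with h12 | h12
          · refine arm_snd_of_far (n := L.u v + N) ?_ ?_
            · rw [hn, abs_of_nonneg (by linarith)]; linarith
            · rw [hn, abs_of_nonneg (by linarith)]; linarith
          · refine arm_snd_of_far (n := L.u v + N + 1) ?_ ?_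
            · push_cast; rw [abs_of_nonpos (by linarith)]; linarith
            · push_cast; rw [abs_of_nonpos (by linarith)]; linarith
        rw [h12]; linarith
      · obtain ⟨h8, h9⟩ := hlast t h
        exact ⟨h8, fun _ => by rw [h9]; linarith, fun h' => by simp at h'⟩
    · obtain ⟨h8, h9⟩ := hlast t (by linarith)
      exact ⟨h8, fun h' => by simp at h', fun _ => by rw [h9]; linarith⟩
    · obtain ⟨h8, h9⟩ := hlast (1 / 2) (by norm_num)
      have e := xs_end L X (t := 1 / 2) (by norm_num)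
      refine ⟨?_, ?_, by rw [h9]; norm_num⟩
      · rw [arm_fst, e, hd]; push_cast; linarith
      · rw [arm_fst, e, hd]; push_cast; linarith
  rw [WW_succ_pos (P := fun s => L.Sg (s : ℤ)) hP, List.append_assoc]
  refine h2.append ?_
  rw [if_pos (even_length_WW _ _ _)]
  exact h5.append (by simpa using h7)

theorem arm_zero : (arm L X 0).2 = 1 := by
  have h2 : (1 : ℝ) / 4 ≤ ((X / L.next.q, 1 - 2 * 0) : Pl).2 := by norm_num
  unfold arm
  rw [Ps_top L h2]
  norm_num

theorem arm_one : (arm L X 1).2 = -1 := by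
  have h2 : ((X / L.next.q, 1 - 2 * 1) : Pl).2 ≤ -1 := by norm_num
  unfold arm
  rw [Ps_bot L h2]
  norm_num

/-- The image of an arm is a vertical line. -/
theorem gg_arm (hX : L.u (v - 1) - 7 / 32 ≤ X) (hX' : X ≤ L.u v - 9 / 32) (t : ℝ) :
    gg L h0 h1 (arm L X t) = (eta L h0 h1 X / L.q, comp w (1 - 2 * t)) := by
  have hq := q_pos' L.next
  unfold arm
  rw [gg_Ps]
  simp only
  rw [mul_div_cancel₀ _ hq.ne', lm_sector L hX hX', mul_zero, sub_zero]

/-- The itinerary of the image. -/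
theorem itinP_gg (hX : L.u (v - 1) - 7 / 32 ≤ X) (hX' : X ≤ L.u v - 9 / 32) {d : ℝ}
    (he : eta L h0 h1 X = v + d) (hd : |d| = 1 / 4) {g : ℤ} (hg1 : ((g : ℝ) - 1) / 2 + 1 / 16 < v + d)
    (hg2 : (v : ℝ) + d < g / 2 - 1 / 16) :
    ItinP L.q [g] (fun t => gg L h0 h1 (arm L X t)) := by
  have hq := q_pos' L
  have hm := (comp_strictMono h0 h1).monotone
  have hav : ∀ t j, gg L h0 h1 (arm L X t) ∉ rc L.q (1 / 16) j := by
    intro t j
    rw [gg_arm h0 h1 hX hX', he]
    refine avoid (n := v) ?_ (Or.inl ?_) j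
    · simp only
      rw [mul_div_cancel₀ _ hq.ne', add_sub_cancel_left, hd]; norm_num
    · simp only
      rw [mul_div_cancel₀ _ hq.ne', add_sub_cancel_left, hd]; norm_num
  refine It.itinP (It.one (b := 1 / 2) (by norm_num) (by norm_num) (fun t ht ht' => ?_)
    (fun t ht ht' => ?_) ?_)
  · refine ⟨hav t, fun _ => ?_, fun h => by simp at h⟩
    rw [gg_arm h0 h1 hX hX', ← comp_zero w]
    exact hm (by linarith)
  · refine ⟨hav t, fun h => by simp at h, fun _ => ?_⟩
    rw [gg_arm h0 h1 hX hX', ← comp_zero w]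
    exact hm (by linarith)
  · rw [gg_arm h0 h1 hX hX', he]
    refine ⟨?_, ?_, ?_⟩
    · simp only
      rw [mul_div_cancel₀ _ hq.ne']; exact hg1
    · simp only
      rw [mul_div_cancel₀ _ hq.ne']; exact hg2
    · simp only
      rw [show (1 : ℝ) - 2 * (1 / 2) = 0 by norm_num, comp_zero]

variable (L)

theorem u_gap (v : ℤ) : (L.u (v - 1) : ℝ) + 31 ≤ L.u v := by
  have h := L.M_le_u_succ (v - 1)
  rw [sub_add_cancel] at h
  have hq := L.q_pos
  have : L.u (v - 1) + 31 ≤ L.u v := by unfold Lv.M at h; omega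
  exact_mod_cast this

theorem armL (v : ℤ) : ∃ δ : ℝ → Pl, Continuous δ ∧ (δ 0).2 = 1 ∧ (δ 1).2 = -1 ∧
    ItinP L.q [2 * v] (fun t => gg L h0 h1 (δ t)) ∧
    ItinP L.next.q (omega L.next.q.toNat (SL L) (L.u v)) δ := by
  have hg := u_gap L v
  have hX : (L.u (v - 1) : ℝ) - 7 / 32 ≤ L.u v - 19 / 16 := by linarith
  have hX' : (L.u v : ℝ) - 19 / 16 ≤ L.u v - 9 / 32 := by linarith
  refine ⟨arm L (L.u v - 19 / 16), continuous_arm L _, arm_zero, arm_one, ?_, ?_⟩
  · refine itinP_gg h0 h1 hX hX' (d := -(1 / 4)) ?_ (by norm_num) ?_ ?_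
    · rw [eta_left]; ring
    · push_cast; linarith
    · push_cast; linarith
  · obtain ⟨N, hN⟩ : ∃ N : ℕ, L.next.q = N + 1 := by
      have := L.next.q_pos
      exact ⟨(L.next.q - 1).toNat, by omega⟩
    have hNr : (L.next.q : ℝ) = N + 1 := by exact_mod_cast hN
    have h2 := it_full hX hX' le_rfl N (by omega) (by
      have := L.Sg_next_q_sub
      rwa [hN, add_sub_cancel_right] at this) (d := 1 / 4)
      (by unfold cc; rw [hNr]; ring) (by norm_num) (by norm_num)
    refine It.itinP ?_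
    have e1 : L.next.q.toNat = N + 1 := by omega
    have e3 : WW (fun s => L.Sg (s : ℤ)) (L.u v) L.next.q.toNat ++ [2 * (L.u v + L.next.q)]
        = WW (fun s => L.Sg (s : ℤ)) (L.u v) (N + 1) ++ [2 * (L.u v + N + 1)] := by
      rw [e1, hN, ← add_assoc]
    rw [omega_eq, e3]
    exact h2

theorem armR (v : ℤ) : ∃ δ : ℝ → Pl, Continuous δ ∧ (δ 0).2 = 1 ∧ (δ 1).2 = -1 ∧
    ItinP L.q [2 * v + 1] (fun t => gg L h0 h1 (δ t)) ∧
    ItinP L.next.q (omega L.next.q.toNat (SL L) (L.u v) ++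
      [2 * (L.u v + L.next.q) + 1, 2 * (L.u v + L.next.q + 1)]) δ := by
  have hg := u_gap L v
  have hX : (L.u (v - 1) : ℝ) - 7 / 32 ≤ L.u v - 21 / 64 := by linarith
  have hX' : (L.u v : ℝ) - 21 / 64 ≤ L.u v - 9 / 32 := by linarith
  refine ⟨arm L (L.u v - 21 / 64), continuous_arm L _, arm_zero, arm_one, ?_, ?_⟩
  · refine itinP_gg h0 h1 hX hX' (d := 1 / 4) ?_ (by norm_num) ?_ ?_
    · rw [eta_right]
    · push_cast; linarith
    · push_cast; linarith
  · have hN : ((L.next.q.toNat : ℕ) : ℤ) = L.next.q := Int.toNat_of_nonneg L.next.q_pos.le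
    have hNr : ((L.next.q.toNat : ℕ) : ℝ) = L.next.q := by exact_mod_cast hN
    have h2 := it_full hX hX' (by linarith) L.next.q.toNat (by omega) (by
      rw [hN]; exact L.Sg_next_q) (d := 25 / 64)
      (by unfold cc; rw [hNr]; ring) (by norm_num) (by norm_num)
    refine It.itinP ?_
    rw [omega_eq]
    rw [WW_succ_pos (P := fun s => L.Sg (s : ℤ)) (by rw [hN]; exact L.Sg_next_q), hN] at h2
    simpa [List.append_assoc, add_assoc] using h2

end St

end Pool.Agent.RAY
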