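import Pool.Agent.RAYH.Maps

/-!
# RAYH: boxes (owner of the proofs: helper42)

A slot `n` is raised if `n - u (vw n) < q'` (then it is in the semigroup), otherwise
`n - u (vw n) > q'` (`Lv.vw_ne_q`).
-/

set_option autoImplicit false

namespace Pool.Agent.RAY

/-- The sector of a slot. -/
noncomputable def Lv.sec (L : Lv) (n : ℤ) : ℤ := (L.exists_sector n).choose

theorem Lv.sec_spec (L : Lv) (n : ℤ) : L.u (L.sec n) ≤ n ∧ n < L.u (L.sec n + 1) :=
  (L.exists_sector n).choose_spec

theorem Lv.sec_eq (L : Lv) {n v : ℤ} (h1 : L.u v ≤ n) (h2 : n < L.u (v + 1)) : L.sec n = v := by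
  obtain ⟨h3, h4⟩ := L.sec_spec n
  have h5 := L.u_strictMono.lt_iff_lt.1 (h1.trans_lt h4)
  have h6 := L.u_strictMono.lt_iff_lt.1 (h3.trans_lt h2)
  omega

namespace St

variable (L : Lv) {w : ℝ} (h0 : 0 < w) (h1 : w ≤ 1 / 16)

open Classical in
/-- The box of level `k` which contains the box `j` of level `k + 1`. -/
noncomputable def par (j : ℤ) : ℤ :=
  if j % 2 = 0 then
    (if j / 2 - L.u (L.vw (j / 2)) < L.next.q then 2 * L.vw (j / 2) + 1
      else 2 * L.sec (j / 2 - L.next.q - 1) + 1)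
  else
    (if j / 2 - L.next.q = L.u (L.sec (j / 2 - L.next.q)) then 2 * L.sec (j / 2 - L.next.q)
      else 2 * L.sec (j / 2 - L.next.q) + 1)

theorem par_pi (j v : ℤ) : par L j = 2 * v ↔ j = 2 * (L.u v + L.next.q) + 1 := by
  unfold par
  have hspec := L.sec_spec (j / 2 - L.next.q)
  constructor
  · intro h
    by_cases hj : j % 2 = 0
    · rw [if_pos hj] at h
      split_ifs at h <;> omega
    · rw [if_neg hj] at h
      by_cases h2 : j / 2 - L.next.q = L.u (L.sec (j / 2 - L.next.q))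
      · rw [if_pos h2] at h
        have h3 : L.sec (j / 2 - L.next.q) = v := by omega
        rw [h3] at h2
        omega
      · rw [if_neg h2] at h
        omega
  · intro h
    have h2 : j / 2 - L.next.q = L.u v := by omega
    have h3 : L.sec (j / 2 - L.next.q) = v :=
      L.sec_eq (by rw [h2]) (by rw [h2]; exact L.u_strictMono (by omega))
    rw [if_neg (by omega), h3, if_pos h2]

theorem par_al (i v : ℤ) (h1 : L.u v < i) (h2 : i < L.u (v + 1)) :
    par L (2 * (i + L.next.q) + 1) = 2 * v + 1 := by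
  unfold par
  have e1 : (2 * (i + L.next.q) + 1) / 2 - L.next.q = i := by omega
  have h3 : L.sec i = v := L.sec_eq h1.le h2
  rw [if_neg (by omega), e1, h3, if_neg (by omega)]

/-- Raised slot: `Ψ⁻¹` of a point of the box has its label in the zone of the arc `vw n`,
and its height is in `(1/8, 1/4)`. -/
theorem raised {n : ℤ} (hn : n - L.u (L.vw n) < L.next.q) {z : Pl}
    (hx : |L.next.q * (Ps L z).1 - n| ≤ 1 / 16) (hy : |(Ps L z).2| ≤ 1 / 16) :
    1 / 8 < z.2 ∧ z.2 < 1 / 4 ∧ L.u (L.vw n) - 33 / 128 < L.next.q * z.1 ∧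
      L.next.q * z.1 < L.u (L.vw n) - 29 / 128 ∧
      (Ps L z).2 = z.2 - 1 / 2 * ph (L.next.q * z.1 - L.u (L.vw n)) := by
  have hq' := q_pos' L.next
  have e1 : L.next.q * (Ps L z).1 = L.next.q * z.1 + sg L z.2 := by
    rw [Ps_apply]
    field_simp
  rw [e1] at hx
  obtain ⟨hx1, hx2⟩ := abs_le.1 hx
  have e2 : be L (L.next.q * z.1 + sg L z.2) (L.next.q * z.1) =
      ph (L.next.q * z.1 - L.u (L.vw n)) := by
    rw [be_near L _ (n := n) (hx.trans_lt (by norm_num)), bb_eq_one hx, one_mul]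
  have e3 : (Ps L z).2 = z.2 - 1 / 2 * ch z.2 * ph (L.next.q * z.1 - L.u (L.vw n)) := by
    rw [Ps_apply]
    show z.2 - 1 / 2 * ch z.2 * be L (L.next.q * z.1 + sg L z.2) (L.next.q * z.1) = _
    rw [e2]
  obtain ⟨hy1, hy2⟩ := abs_le.1 hy
  have hn' : (n : ℝ) - L.u (L.vw n) + 1 ≤ L.next.q := by exact_mod_cast (by omega)
  have g1 : 1 / 8 < z.2 := by
    by_contra hlt
    push Not at hlt
    rw [sg_bot L hlt] at hx1 hx2
    rw [ph_eq_one (by linarith)] at e3
    rcases le_total 0 z.2 with h | h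
    · rw [ch_eq_one h] at e3
      linarith
    · rcases le_total z.2 (-1) with h' | h'
      · rw [ch_eq_zero h'] at e3
        linarith
      · have e4 : ch z.2 = z.2 + 1 := cl_of_mem (by linarith) (by linarith)
        rw [e4] at e3
        linarith
  have g2 : z.2 < 1 / 4 := by
    by_contra hge
    push Not at hge
    rw [Ps_top L hge] at hy2
    linarith
  rw [ch_eq_one (by linarith), mul_one] at e3
  have p1 : ph (L.next.q * z.1 - L.u (L.vw n)) < 5 / 8 := by linarith
  have p2 : 1 / 8 < ph (L.next.q * z.1 - L.u (L.vw n)) := by linarith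
  have t1 : -(9 / 32) < L.next.q * z.1 - L.u (L.vw n) := by
    by_contra h
    push Not at h
    rw [ph_eq_one h] at p1
    norm_num at p1
  have t2 : L.next.q * z.1 - L.u (L.vw n) < -(7 / 32) := by
    by_contra h
    push Not at h
    rw [ph_eq_zero h] at p2
    norm_num at p2
  rw [ph_of_mem t1.le t2.le] at p1 p2
  exact ⟨g1, g2, by linarith, by linarith, e3⟩

/-- The points `Ψ z` with `z.2 ≤ 1/8` over a place where nothing is lowered. -/
theorem low {z : Pl} (hy : z.2 ≤ 1 / 8) (hb : be L (L.next.q * z.1) (L.next.q * z.1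
    - (L.next.q + 15 / 16)) = 0) :
    gg L h0 h1 z = (eta L h0 h1 (L.next.q * z.1 - (L.next.q + 15 / 16)) / L.q,
      comp w (z.2 - 1 / 2 * ch3 z.2 * lm L (L.next.q * z.1 - (L.next.q + 15 / 16)))) := by
  have hq' := q_pos' L.next
  have e1 : L.next.q * (z.1 - (L.next.q + 15 / 16) / L.next.q) =
      L.next.q * z.1 - (L.next.q + 15 / 16) := by field_simp
  have h2 := gg_Ps L h0 h1 (z.1 - (L.next.q + 15 / 16) / L.next.q, z.2)
  have h3 : Ps L (z.1 - (L.next.q + 15 / 16) / L.next.q, z.2) = z := by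
    rw [Ps_apply]
    show (z.1 - (L.next.q + 15 / 16) / L.next.q + sg L z.2 / L.next.q,
      z.2 - 1 / 2 * ch z.2 * be L (L.next.q * (z.1 - (L.next.q + 15 / 16) / L.next.q) + sg L z.2)
        (L.next.q * (z.1 - (L.next.q + 15 / 16) / L.next.q))) = z
    rw [e1, sg_bot L hy, sub_add_cancel, sub_add_cancel, hb, mul_zero, sub_zero]
  rw [h3] at h2
  rw [h2, e1]

/-- A point with low label in the box `α_v`. -/
private theorem low_al {z : Pl} (hy : |z.2| ≤ 1 / 8) {v : ℤ}
    (hb : be L (L.next.q * z.1) (L.next.q * z.1 - (L.next.q + 15 / 16)) = 0)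
    (hx1 : L.u v - 7 / 32 ≤ L.next.q * z.1 - (L.next.q + 15 / 16))
    (hx2 : L.next.q * z.1 - (L.next.q + 15 / 16) ≤ L.u (v + 1) - 11 / 8) :
    gg L h0 h1 z = (eta L h0 h1 (L.next.q * z.1 - (L.next.q + 15 / 16)) / L.q, comp w z.2) ∧
      gg L h0 h1 z ∈ rc L.q w (2 * v + 1) := by
  have hq := q_pos' L
  obtain ⟨hy1, hy2⟩ := abs_le.1 hy
  have e1 := low L h0 h1 hy2 hb
  rw [lm_sector L (v := v + 1) (by rw [add_sub_cancel_right]; exact hx1) (by linarith),
    mul_zero, sub_zero] at e1
  refine ⟨e1, ?_⟩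
  rw [e1]
  refine ⟨?_, abs_comp_le_w h0 (hy.trans (by norm_num))⟩
  have h2 := eta_al L h0 h1 (v := v) (by linarith) hx2
  show |L.q * (eta L h0 h1 (L.next.q * z.1 - (L.next.q + 15 / 16)) / L.q)
    - ((2 * v + 1 : ℤ) : ℝ) / 2| ≤ w
  rw [mul_div_cancel₀ _ hq.ne']
  push_cast
  rwa [show ((2 : ℝ) * v + 1) / 2 = v + 1 / 2 by ring]

/-- Bottom slots. -/
private theorem be_bottom {n : ℤ} (hn : L.next.q + 1 ≤ n - L.u (L.vw n)) {x : ℝ}
    (hx : |x - n| < 13 / 16) : be L x (x - (L.next.q + 15 / 16)) = 0 := by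
  rcases le_or_gt (3 / 16) |x - n| with h | h
  · exact be_eq_zero L _ h hx
  · have hn' : (L.next.q : ℝ) + 1 ≤ n - L.u (L.vw n) := by exact_mod_cast hn
    have := (abs_lt.1 h).1
    rw [be_near L _ hx, ph_eq_zero (by linarith), mul_zero]

/-- All about the boxes. -/
private theorem box_ring (j : ℤ) (z : Pl) (hz : z ∈ rc L.next.q (1 / 16) j) :
    gg L h0 h1 z ∈ rc L.q w (par L j) ∧ (z.2 = 0 → (gg L h0 h1 z).2 = 0) := by
  have hq := q_pos' L
  obtain ⟨hz1, hz2⟩ := hz
  obtain ⟨hy1, hy2⟩ := abs_le.1 hz2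
  obtain ⟨n, hn | hn⟩ := Int.even_or_odd' j
  · -- a slot
    subst hn
    have en : (2 * n) / 2 = n := by omega
    have hx : |L.next.q * z.1 - n| ≤ 1 / 16 := by
      push_cast at hz1
      rwa [mul_div_cancel_left₀ _ (two_ne_zero)] at hz1
    obtain ⟨hx1, hx2⟩ := abs_le.1 hx
    unfold par
    rw [if_pos (by omega), en]
    by_cases hr : n - L.u (L.vw n) < L.next.q
    · rw [if_pos hr]
      obtain ⟨z', rfl⟩ := exists_Ps L z
      obtain ⟨g1, g2, g3, g4, g5⟩ := raised L hr hx hz2
      set v := L.vw n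
      set X : ℝ := L.next.q * z'.1 with hX
      have hM := L.M_le_u_succ v
      have hM' : 31 ≤ L.M := by
        have := L.q_pos
        unfold Lv.M
        omega
      have hu : (L.u v : ℝ) + 31 ≤ L.u (v + 1) := by exact_mod_cast (by omega)
      have e1 := gg_Ps L h0 h1 z'
      rw [← hX, ch3_eq_one (by linarith) g2.le, mul_one,
        lm_zone L (v := v) (by linarith) (by linarith)] at e1
      have hph := ph_of_mem (t := X - L.u v) (by linarith) (by linarith)
      have hla : la (X - L.u v) = 1 / 2 - 16 * |X - L.u v + 1 / 4| := by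
        unfold la
        refine max_eq_right ?_
        have : |X - L.u v + 1 / 4| ≤ 1 / 32 := abs_le.2 ⟨by linarith, by linarith⟩
        linarith
      have a1 := le_abs_self (X - L.u v + 1 / 4)
      have a2 := neg_le_abs (X - L.u v + 1 / 4)
      have a3 : |X - L.u v + 1 / 4| ≤ 3 / 128 := abs_le.2 ⟨by linarith, by linarith⟩
      have a4 : |X - L.u v + 1 / 4| ≤ -(X - L.u v + 1 / 4) + 6 / 128 := by
        rcases le_total 0 (X - L.u v + 1 / 4) with h | h
        · rw [abs_of_nonneg h]; linarith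
        · rw [abs_of_nonpos h]; linarith
      have hh : |z'.2 - 1 / 2 * la (X - L.u v)| ≤ 1 / 4 := by
        rw [hla, abs_le]
        rw [g5, hph] at hy1 hy2
        constructor
        · linarith
        · rcases le_total 0 (X - L.u v + 1 / 4) with h | h
          · rw [abs_of_nonneg h]; linarith
          · rw [abs_of_nonpos h]; linarith
      rw [e1]
      refine ⟨⟨?_, abs_comp_le_w h0 hh⟩, fun h => ?_⟩
      · have h2 := eta_al L h0 h1 (X := X) (v := v) (by linarith) (by linarith)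
        show |L.q * (eta L h0 h1 X / L.q) - ((2 * v + 1 : ℤ) : ℝ) / 2| ≤ w
        rw [mul_div_cancel₀ _ hq.ne']
        push_cast
        rwa [show ((2 : ℝ) * v + 1) / 2 = v + 1 / 2 by ring]
      · show comp w (z'.2 - 1 / 2 * la (X - L.u v)) = 0
        have h3 : -(1 / 4) ≤ X - L.u v := by
          rw [g5, hph] at h
          linarith
        rw [la_eq_ph h3]
        rw [g5] at h
        rw [h, comp_zero]
    · rw [if_neg hr]
      have hb : L.next.q + 1 ≤ n - L.u (L.vw n) := by
        have := L.vw_ne_q n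
        omega
      have hs := L.lt_u_vw_succ n
      set v := L.vw n
      have hsec : L.sec (n - L.next.q - 1) = v := L.sec_eq (by omega) (by omega)
      rw [hsec]
      have r1 : (L.next.q : ℝ) + 1 ≤ n - L.u v := by exact_mod_cast hb
      have r2 : (n : ℝ) - L.next.q + 1 ≤ L.u (v + 1) := by exact_mod_cast (by omega)
      obtain ⟨k1, k2⟩ := low_al L h0 h1 (hz2.trans (by norm_num)) (v := v)
        (be_bottom L hb (hx.trans_lt (by norm_num))) (by linarith) (by linarith)
      refine ⟨k2, fun h => ?_⟩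
      rw [k1, h]
      exact comp_zero w
  · -- between the slots
    subst hn
    have en : (2 * n + 1) / 2 = n := by omega
    have hx : |L.next.q * z.1 - (n + 1 / 2)| ≤ 1 / 16 := by
      push_cast at hz1
      rwa [show ((2 : ℝ) * n + 1) / 2 = n + 1 / 2 by ring] at hz1
    obtain ⟨hx1, hx2⟩ := abs_le.1 hx
    have hb : be L (L.next.q * z.1) (L.next.q * z.1 - (L.next.q + 15 / 16)) = 0 := by
      refine be_eq_zero L (n := n) _ ?_ ?_
      · exact le_trans (by linarith) (le_abs_self _)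
      · rw [abs_lt]; constructor <;> linarith
    unfold par
    rw [if_neg (by omega), en]
    obtain ⟨s1, s2⟩ := L.sec_spec (n - L.next.q)
    set v := L.sec (n - L.next.q)
    have s2' : (n : ℝ) - L.next.q + 1 ≤ L.u (v + 1) := by exact_mod_cast (by omega)
    by_cases hv : n - L.next.q = L.u v
    · rw [if_pos hv]
      have hv' : (n : ℝ) - L.next.q = L.u v := by exact_mod_cast hv
      have hM := L.M_le_u_succ (v - 1)
      rw [sub_add_cancel] at hM
      have hM' := L.M_pos
      have hu : (L.u (v - 1) : ℝ) + 1 ≤ L.u v := by exact_mod_cast (by omega)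
      have e1 := low L h0 h1 (hy2.trans (by norm_num)) hb
      rw [lm_sector L (v := v) (by linarith) (by linarith), mul_zero, sub_zero] at e1
      rw [e1]
      refine ⟨⟨?_, abs_comp_le_w h0 (hz2.trans (by norm_num))⟩, fun h => ?_⟩
      · have h2 := eta_pi L h0 h1 (v := v)
          (X := L.next.q * z.1 - (L.next.q + 15 / 16)) (by linarith) (by linarith)
        show |L.q * (eta L h0 h1 (L.next.q * z.1 - (L.next.q + 15 / 16)) / L.q)
          - ((2 * v : ℤ) : ℝ) / 2| ≤ w
        rw [mul_div_cancel₀ _ hq.ne']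
        push_cast
        rwa [mul_div_cancel_left₀ _ (two_ne_zero)]
      · show comp w z.2 = 0
        rw [h, comp_zero]
    · rw [if_neg hv]
      have s1' : (L.u v : ℝ) + 1 ≤ n - L.next.q := by exact_mod_cast (by omega)
      obtain ⟨k1, k2⟩ := low_al L h0 h1 (hz2.trans (by norm_num)) (v := v) hb
        (by linarith) (by linarith)
      refine ⟨k2, fun h => ?_⟩
      rw [k1, h]
      exact comp_zero w

theorem gg_box (j : ℤ) (z : Pl) (hz : z ∈ rc L.next.q (1 / 16) j) :
    gg L h0 h1 z ∈ rc L.q w (par L j) := (box_ring L h0 h1 j z hz).1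

theorem gg_ring (j : ℤ) (z : Pl) (hz : z ∈ rc L.next.q (1 / 16) j) (hy : z.2 = 0) :
    (gg L h0 h1 z).2 = 0 := (box_ring L h0 h1 j z hz).2 hy

/-- Use `Lv.far_large`, `Lv.not_u_add`, `Lv.exists_sector_block`. -/
theorem gg_sect (c : ℤ) (hc : c = L.next.ex ∨ c = L.next.ex + L.next.p) :
    ∃ v : ℤ, ∀ z : Pl, |L.next.q * z.1 - (c - 1 / 4)| ≤ 1 → |z.2| ≤ 1 / 8 →
      gg L h0 h1 z ∈ rc L.q w (2 * v + 1) := by
  have hfar : ∀ n : ℤ, |n| ≤ 5 → L.q * L.q + L.q < |L.next.tm (c + n)| := by
    intro n hn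
    have h2 := L.far_large hn
    have hq := L.q_pos
    rcases hc with rfl | rfl
    · have := h2.1; omega
    · have := h2.2; omega
  have hfar' : ∀ m : ℕ, m ≤ 3 → L.q * L.q + L.q < |L.next.tm (c - L.next.q - 2 + m)| := by
    intro m hm
    have h2 := hfar (m - 2) (by rw [abs_le]; omega)
    have h3 := L.next.tm_add_q (c + (m - 2)) (-1)
    rw [show c + ((m : ℤ) - 2) + -1 * L.next.q = c - L.next.q - 2 + m by ring] at h3
    rwa [h3]
  obtain ⟨v, hv1, hv2⟩ := L.exists_sector_block hfar'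
  refine ⟨v, fun z hz1 hz2 => ?_⟩
  have r1 : (L.u v : ℝ) + 1 ≤ c - L.next.q - 2 := by exact_mod_cast (by omega)
  have r2 : (c : ℝ) - L.next.q + 2 ≤ L.u (v + 1) := by
    have : c - L.next.q + 2 ≤ L.u (v + 1) := by push_cast at hv2; omega
    exact_mod_cast this
  obtain ⟨hx1, hx2⟩ := abs_le.1 hz1
  have hbot : ∀ n : ℤ, |n| ≤ 5 → L.next.q + 1 ≤ c + n - L.u (L.vw (c + n)) := by
    intro n hn
    rcases L.raised_or_bottom (c + n) with ⟨h2, h3⟩ | h2
    · exact absurd h2 (L.not_u_add (hfar n hn) (by omega))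
    · exact h2
  refine (low_al L h0 h1 hz2 ?_ (by linarith) (by linarith)).2
  rcases le_or_gt (L.next.q * z.1) (c - 1 / 2) with h | h
  · refine be_bottom L (hbot (-1) (by norm_num)) ?_
    push_cast
    rw [abs_lt]
    constructor <;> linarith
  · have h2 := hbot 0 (by norm_num)
    rw [add_zero] at h2
    refine be_bottom L h2 ?_
    rw [abs_lt]
    constructor <;> linarith

end St

end Pool.Agent.RAY
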