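import Pool.Agent.RAYH.Maps

/-!
# RAYH: heights and columns (owner of the proofs: helper24)
-/

set_option autoImplicit false

namespace Pool.Agent.RAY

namespace St

variable (L : Lv) {w : ℝ} (h0 : 0 < w) (h1 : w ≤ 1 / 16)

theorem gg_top1 (z : Pl) (h : 1 ≤ z.2) : (gg L h0 h1 z).2 = z.2 - 15 / 16 := by
  rw [gg_top L h0 h1 (by linarith)]
  simp only
  rw [ch3_eq_zero (Or.inr h), mul_zero, zero_mul, sub_zero, comp_top h]

theorem gg_bot1 (z : Pl) (h : z.2 ≤ -1) : (gg L h0 h1 z).2 = z.2 + 15 / 16 := by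
  rw [gg_bot L h0 h1 h]
  exact comp_bot h

theorem gg_mid (z : Pl) (h : |z.2| ≤ 1) : |(gg L h0 h1 z).2| ≤ 1 / 16 := by
  obtain ⟨z', rfl⟩ := exists_Ps L z
  rw [gg_Ps]
  exact abs_comp_le h0 h1 (mV_strip L |>.2 ((Ps_strip L).1 h))

theorem gg_below (v : ℤ) (z : Pl) (hx : |L.q * z.1 - v| ≤ 1 / 16) (hy : z.2 < 0) :
    ((gg L h0 h1)⁻¹ z).2 < 0 := by
  have hq := q_pos' L
  obtain ⟨z', hz'⟩ := exists_Ps L ((gg L h0 h1)⁻¹ z)
  have h2 := gg_Ps L h0 h1 z'
  rw [hz', HH.apply_inv_self] at h2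
  rw [h2] at hx hy
  simp only at hx hy
  rw [mul_div_cancel₀ _ hq.ne'] at hx
  obtain ⟨h3, h4⟩ := eta_col L h0 h1 hx
  have h5 : L.u (v - 1) + L.M ≤ L.u v := by
    have := L.M_le_u_succ (v - 1)
    rw [sub_add_cancel] at this
    omega
  have h6 : 31 ≤ L.M := by
    have := L.q_pos
    unfold Lv.M
    omega
  have h7 : (L.u (v - 1) : ℝ) + 31 ≤ L.u v := by
    have : L.u (v - 1) + 31 ≤ L.u v := by omega
    exact_mod_cast this
  rw [lm_sector L (v := v) (by linarith) (by linarith), mul_zero, sub_zero] at hy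
  have h8 : z'.2 < 0 := by
    by_contra h9
    have := (comp_strictMono h0 h1).monotone (not_lt.1 h9)
    rw [comp_zero] at this
    linarith
  have h9 := Ps_le L z'
  rw [hz'] at h9
  linarith

theorem gg_above (z : Pl) (hx : |L.next.q * z.1| ≤ 1 / 16) (hy : 0 ≤ z.2) :
    1 / 16 < L.q * (gg L h0 h1 z).1 ∧ L.q * (gg L h0 h1 z).1 < 3 / 4 := by
  have hq := q_pos' L
  have hq' := q_pos' L.next
  have hu0 : L.u 0 = 0 := by
    have h2 := L.q_mul_u 0
    rw [mul_zero, L.tm_zero, add_zero] at h2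
    exact (mul_eq_zero.1 h2).resolve_left L.q_pos.ne'
  have hv0 : L.vw 0 = 0 := by
    have h2 := L.vw_u 0
    rwa [hu0] at h2
  have hu1 : (31 : ℝ) ≤ L.u 1 := by
    have h5 := L.M_le_u_succ 0
    rw [zero_add, hu0] at h5
    have h6 := L.q_pos
    have h7 : 31 ≤ L.u 1 := by
      unfold Lv.M at h5
      omega
    exact_mod_cast h7
  obtain ⟨z', rfl⟩ := exists_Ps L z
  rw [gg_Ps]
  simp only
  rw [mul_div_cancel₀ _ hq.ne']
  rw [Ps_apply] at hx hy
  simp only at hx hy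
  have e : L.next.q * (z'.1 + sg L z'.2 / L.next.q) = L.next.q * z'.1 + sg L z'.2 := by
    field_simp
  rw [e] at hx
  set X := (L.next.q : ℝ) * z'.1 with hX
  set Y := z'.2 with hY
  have h2 := sg_nonneg L Y
  have hb := be_nonneg L (X + sg L Y) X
  have hY0 : 0 ≤ Y := by
    have := mul_nonneg (ch_nonneg Y) hb
    linarith
  obtain ⟨h3, h4⟩ := abs_le.1 hx
  have h5 : -(1 / 4) ≤ X := by
    rcases le_or_gt (1 / 4) Y with h | h
    · rw [sg_top L h] at h3
      linarith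
    · have h6 : be L (X + sg L Y) X = ph X := by
        have h7 : |X + sg L Y - (0 : ℤ)| < 13 / 16 := by
          rw [Int.cast_zero, sub_zero]
          exact hx.trans_lt (by norm_num)
        rw [be_near L X h7, hv0, hu0, Int.cast_zero, sub_zero, sub_zero, bb_eq_one hx, one_mul]
      rw [h6, ch_eq_one hY0] at hy
      by_contra h8
      have h9 : ph (-(1 / 4)) ≤ ph X := ph_anti (by linarith)
      rw [ph_of_mem (by norm_num) (by norm_num)] at h9
      linarith
  have h6 := eta_al L h0 h1 (X := X) (v := 0) (by rw [hu0, Int.cast_zero]; linarith)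
    (by rw [zero_add]; linarith)
  rw [Int.cast_zero, zero_add] at h6
  obtain ⟨h7, h8⟩ := abs_le.1 h6
  constructor <;> linarith

end St

end Pool.Agent.RAY
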