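import Pool.Agent.RAYH.Equi
import Pool.Agent.RAYH.Box
import Pool.Agent.RAYH.Arms
import Pool.Agent.RAYH.Cols

/-!
# RAYH: the step exists
-/

set_option autoImplicit false

namespace Pool.Agent.RAY

open St

/-- Block (H). -/
theorem exists_step (L : Lv) (w : ℝ) (h0 : 0 < w) (h1 : w ≤ 1 / 16) : Nonempty (HStep L w) :=
  ⟨{  g := gg L h0 h1
      h := hh L h0 h1
      par := par L
      top := gg_top1 L h0 h1
      bot := gg_bot1 L h0 h1
      mid := gg_mid L h0 h1
      supp := hh_supp L h0 h1
      conj := by
        intro z hz
        have h2 := gg_mid L h0 h1 z hz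
        simp only [hh, HH.mul_apply]
        rw [kap_near L h0 h1 h2]
        simp
      par_pi := par_pi L
      par_al := par_al L
      box := gg_box L h0 h1
      ring := gg_ring L h0 h1
      sect := gg_sect L h0 h1
      armL := armL L h0 h1
      armR := armR L h0 h1
      below := gg_below L h0 h1
      above := gg_above L h0 h1 }⟩

end Pool.Agent.RAY
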