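import Pool.Agent.RAY.Step
import Pool.Agent.RAY.Fib

/-!
# RAYH: the scalar functions of the step homeomorphism (block H of problem MP_5d2250_gt)

All functions are piecewise linear.  Slot coordinates: in the picture with `q` slots the slot `w` is
at `x = w`, the period is `q`.
-/

set_option autoImplicit false

namespace Pool.Agent.RAY

namespace St

/-- Clamp to `[0, 1]`. -/
noncomputable def cl (t : ℝ) : ℝ := max 0 (min 1 t)

theorem continuous_cl : Continuous cl := by unfold cl; fun_prop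

theorem cl_nonneg (t : ℝ) : 0 ≤ cl t := le_max_left _ _

theorem cl_le_one (t : ℝ) : cl t ≤ 1 := max_le zero_le_one (min_le_left _ _)

theorem cl_of_nonpos {t : ℝ} (h : t ≤ 0) : cl t = 0 := by
  unfold cl; rw [min_eq_right (by linarith), max_eq_left h]

theorem cl_of_one_le {t : ℝ} (h : 1 ≤ t) : cl t = 1 := by
  unfold cl; rw [min_eq_left h, max_eq_right zero_le_one]

theorem cl_of_mem {t : ℝ} (h0 : 0 ≤ t) (h1 : t ≤ 1) : cl t = t := by
  unfold cl; rw [min_eq_right h1, max_eq_right h0]

theorem cl_mono : Monotone cl := fun a b h => max_le_max le_rfl (min_le_min le_rfl h)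

/-- Clamping does not increase distances. -/
theorem cl_sub_le {a b : ℝ} (h : a ≤ b) : cl b - cl a ≤ b - a := by
  unfold cl
  rcases le_total 1 a with h1 | h1 <;> rcases le_total 1 b with h2 | h2 <;>
  rcases le_total a 0 with h3 | h3 <;> rcases le_total b 0 with h4 | h4 <;>
  simp_all <;> linarith

/-- The step function `Φ`. -/
noncomputable def ph (t : ℝ) : ℝ := cl (1 / 2 - 16 * (t + 1 / 4))

theorem continuous_ph : Continuous ph := by unfold ph; exact continuous_cl.comp (by fun_prop)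

theorem ph_nonneg (t : ℝ) : 0 ≤ ph t := cl_nonneg _

theorem ph_le_one (t : ℝ) : ph t ≤ 1 := cl_le_one _

theorem ph_anti : Antitone ph := fun a b h => cl_mono (by linarith)

theorem ph_eq_one {t : ℝ} (h : t ≤ -(9 / 32)) : ph t = 1 := cl_of_one_le (by linarith)

theorem ph_eq_zero {t : ℝ} (h : -(7 / 32) ≤ t) : ph t = 0 := cl_of_nonpos (by linarith)

theorem ph_of_mem {t : ℝ} (h0 : -(9 / 32) ≤ t) (h1 : t ≤ -(7 / 32)) :
    ph t = 1 / 2 - 16 * (t + 1 / 4) := cl_of_mem (by linarith) (by linarith)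

/-- The tent `Λ`. -/
noncomputable def la (t : ℝ) : ℝ := max 0 (1 / 2 - 16 * |t + 1 / 4|)

theorem continuous_la : Continuous la := by unfold la; fun_prop

theorem la_nonneg (t : ℝ) : 0 ≤ la t := le_max_left _ _

theorem la_le (t : ℝ) : la t ≤ 1 / 2 := max_le (by norm_num) (by
  have := abs_nonneg (t + 1 / 4)
  linarith)

theorem la_eq_zero {t : ℝ} (h : t ≤ -(9 / 32) ∨ -(7 / 32) ≤ t) : la t = 0 := by
  unfold la
  refine max_eq_left ?_
  rcases h with h | h
  · have := neg_le_abs (t + 1 / 4)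
    linarith
  · have := le_abs_self (t + 1 / 4)
    linarith

theorem la_eq_ph {t : ℝ} (h : -(1 / 4) ≤ t) : la t = ph t := by
  rcases le_total (-(7 / 32)) t with h1 | h1
  · rw [la_eq_zero (Or.inr h1), ph_eq_zero h1]
  · rw [ph_of_mem (by linarith) h1]
    unfold la
    rw [abs_of_nonneg (by linarith), max_eq_right (by linarith)]

/-- The bump `b` over the slots. -/
noncomputable def bb (t : ℝ) : ℝ := cl (8 * (3 / 16 - |t|))

theorem continuous_bb : Continuous bb := by unfold bb; exact continuous_cl.comp (by fun_prop)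

theorem bb_nonneg (t : ℝ) : 0 ≤ bb t := cl_nonneg _

theorem bb_le_one (t : ℝ) : bb t ≤ 1 := cl_le_one _

theorem bb_eq_one {t : ℝ} (h : |t| ≤ 1 / 16) : bb t = 1 := cl_of_one_le (by linarith)

theorem bb_eq_zero {t : ℝ} (h : 3 / 16 ≤ |t|) : bb t = 0 := cl_of_nonpos (by linarith)

/-- The shear `σ`. -/
noncomputable def sg (L : Lv) (y : ℝ) : ℝ := (L.next.q + 15 / 16) * cl (2 - 8 * y)

theorem q_pos' (L : Lv) : (0 : ℝ) < L.q := by exact_mod_cast L.q_pos

theorem continuous_sg (L : Lv) : Continuous (sg L) := by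
  unfold sg; exact continuous_const.mul (continuous_cl.comp (by fun_prop))

theorem sg_nonneg (L : Lv) (y : ℝ) : 0 ≤ sg L y :=
  mul_nonneg (by have := q_pos' L.next; linarith) (cl_nonneg _)

theorem sg_le (L : Lv) (y : ℝ) : sg L y ≤ L.next.q + 15 / 16 := by
  have h1 := q_pos' L.next
  have h2 := cl_le_one (2 - 8 * y)
  unfold sg
  nlinarith

theorem sg_anti (L : Lv) : Antitone (sg L) := fun a b h =>
  mul_le_mul_of_nonneg_left (cl_mono (by linarith)) (by have := q_pos' L.next; linarith)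

theorem sg_top (L : Lv) {y : ℝ} (h : 1 / 4 ≤ y) : sg L y = 0 := by
  unfold sg; rw [cl_of_nonpos (by linarith), mul_zero]

theorem sg_bot (L : Lv) {y : ℝ} (h : y ≤ 1 / 8) : sg L y = L.next.q + 15 / 16 := by
  unfold sg; rw [cl_of_one_le (by linarith), mul_one]

/-- The lower cut-off `χ`. -/
noncomputable def ch (y : ℝ) : ℝ := cl (y + 1)

theorem continuous_ch : Continuous ch := by unfold ch; exact continuous_cl.comp (by fun_prop)

theorem ch_nonneg (y : ℝ) : 0 ≤ ch y := cl_nonneg _

theorem ch_le_one (y : ℝ) : ch y ≤ 1 := cl_le_one _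

theorem ch_mono : Monotone ch := fun a b h => cl_mono (by linarith)

theorem ch_sub_le {a b : ℝ} (h : a ≤ b) : ch b - ch a ≤ b - a := by
  have := cl_sub_le (a := a + 1) (b := b + 1) (by linarith)
  unfold ch
  linarith

theorem ch_eq_one {y : ℝ} (h : 0 ≤ y) : ch y = 1 := cl_of_one_le (by linarith)

theorem ch_eq_zero {y : ℝ} (h : y ≤ -1) : ch y = 0 := cl_of_nonpos (by linarith)

/-- The cut-off `χ₃`. -/
noncomputable def ch3 (y : ℝ) : ℝ := cl (min (y + 1) (4 / 3 * (1 - y)))

theorem continuous_ch3 : Continuous ch3 := by unfold ch3; exact continuous_cl.comp (by fun_prop)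

theorem ch3_nonneg (y : ℝ) : 0 ≤ ch3 y := cl_nonneg _

theorem ch3_le_one (y : ℝ) : ch3 y ≤ 1 := cl_le_one _

theorem ch3_sub_le {a b : ℝ} (h : a ≤ b) : ch3 b - ch3 a ≤ b - a := by
  unfold ch3
  rcases le_total (min (a + 1) (4 / 3 * (1 - a))) (min (b + 1) (4 / 3 * (1 - b))) with h1 | h1
  · refine (cl_sub_le h1).trans ?_
    have h2 : min (b + 1) (4 / 3 * (1 - b)) ≤ b + 1 := min_le_left _ _
    rcases min_cases (a + 1) (4 / 3 * (1 - a)) with ⟨h3, h4⟩ | ⟨h3, h4⟩
    · rw [h3]; linarith
    · have h5 : min (b + 1) (4 / 3 * (1 - b)) ≤ 4 / 3 * (1 - b) := min_le_right _ _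
      rw [h3]; linarith
  · have := cl_mono h1
    linarith

theorem ch3_eq_one {y : ℝ} (h0 : 0 ≤ y) (h1 : y ≤ 1 / 4) : ch3 y = 1 :=
  cl_of_one_le (le_min (by linarith) (by linarith))

theorem ch3_eq_zero {y : ℝ} (h : y ≤ -1 ∨ 1 ≤ y) : ch3 y = 0 := by
  refine cl_of_nonpos ?_
  rcases h with h | h
  · exact (min_le_left _ _).trans (by linarith)
  · exact (min_le_right _ _).trans (by linarith)

/-- The compression of the heights: `0 ↦ 0`, `± 1/4 ↦ ± w/2`, `± 1 ↦ ± 1/16`, slope one outside. -/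
noncomputable def comp (w y : ℝ) : ℝ :=
  2 * w * max (-(1 / 4)) (min (1 / 4) y)
    + 4 / 3 * (1 / 16 - w / 2) * ((max (1 / 4) (min 1 y) - 1 / 4) + (max (-1) (min (-(1 / 4)) y)
      + 1 / 4))
    + (max 1 y - 1) + (min (-1) y + 1)

theorem continuous_comp (w : ℝ) : Continuous (comp w) := by unfold comp; fun_prop

theorem comp_zero (w : ℝ) : comp w 0 = 0 := by
  unfold comp
  norm_num [max_def, min_def]

theorem comp_mid {w y : ℝ} (h : |y| ≤ 1 / 4) : comp w y = 2 * w * y := by
  obtain ⟨h1, h2⟩ := abs_le.1 h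
  unfold comp
  rw [min_eq_right h2, max_eq_right h1, min_eq_right (by linarith : y ≤ 1),
    max_eq_left h2, min_eq_left h1, max_eq_right (by norm_num), max_eq_left (by linarith),
    min_eq_left (by linarith)]
  ring

theorem comp_up {w y : ℝ} (h1 : 1 / 4 ≤ y) (h2 : y ≤ 1) :
    comp w y = w / 2 + 4 / 3 * (1 / 16 - w / 2) * (y - 1 / 4) := by
  unfold comp
  rw [min_eq_left h1, max_eq_right (by norm_num), min_eq_right h2, max_eq_right h1,
    min_eq_left (by linarith), max_eq_right (by norm_num), max_eq_left h2,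
    min_eq_left (by linarith)]
  ring

theorem comp_down {w y : ℝ} (h1 : y ≤ -(1 / 4)) (h2 : -1 ≤ y) :
    comp w y = -(w / 2) + 4 / 3 * (1 / 16 - w / 2) * (y + 1 / 4) := by
  unfold comp
  rw [min_eq_right (by linarith : y ≤ 1 / 4), max_eq_left h1, min_eq_right (by linarith : y ≤ 1),
    max_eq_left (by linarith), min_eq_right h1, max_eq_right h2, max_eq_left (by linarith),
    min_eq_left h2]
  ring

theorem comp_top {w y : ℝ} (h : 1 ≤ y) : comp w y = y - 15 / 16 := by
  unfold comp
  rw [min_eq_left (by linarith), max_eq_right (by norm_num), min_eq_left h,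
    max_eq_right (by norm_num), min_eq_left (by linarith), max_eq_right (by norm_num),
    max_eq_right h, min_eq_left (by linarith)]
  ring

theorem comp_bot {w y : ℝ} (h : y ≤ -1) : comp w y = y + 15 / 16 := by
  unfold comp
  rw [min_eq_right (by linarith), max_eq_left (by linarith), min_eq_right (by linarith),
    max_eq_left (by linarith), min_eq_right (by linarith), max_eq_left h,
    max_eq_left (by linarith), min_eq_right h]
  ring

theorem comp_strictMono {w : ℝ} (h0 : 0 < w) (h1 : w ≤ 1 / 16) : StrictMono (comp w) := by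
  intro a b hab
  have key : ∀ {s t : ℝ}, s < t → (t ≤ -1 ∨ (-1 ≤ s ∧ t ≤ -(1 / 4)) ∨ (|s| ≤ 1 / 4 ∧ |t| ≤ 1 / 4) ∨
      (1 / 4 ≤ s ∧ t ≤ 1) ∨ 1 ≤ s) → comp w s < comp w t := by
    rintro s t hst (h | h | h | h | h)
    · rw [comp_bot h, comp_bot (hst.le.trans h)]; linarith
    · rw [comp_down h.2 (h.1.trans hst.le), comp_down (hst.le.trans h.2) h.1]
      have : 0 < (1 / 16 - w / 2) * (t - s) := mul_pos (by linarith) (by linarith)
      linarith
    · rw [comp_mid h.1, comp_mid h.2]
      have : 0 < w * (t - s) := mul_pos h0 (by linarith)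
      linarith
    · rw [comp_up h.1 (hst.le.trans h.2), comp_up (h.1.trans hst.le) h.2]
      have : 0 < (1 / 16 - w / 2) * (t - s) := mul_pos (by linarith) (by linarith)
      linarith
    · rw [comp_top h, comp_top (h.trans hst.le)]; linarith
  -- go through the break points
  have k2 : ∀ c : ℝ, (∀ s t, s < t → t ≤ c → comp w s < comp w t) →
      (∀ s t, s < t → c ≤ s → comp w s < comp w t) → ∀ s t, s < t → comp w s < comp w t := by
    intro c h1 h2 s t hst
    rcases le_or_gt t c with h | h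
    · exact h1 s t hst h
    · rcases le_or_gt c s with h' | h'
      · exact h2 s t hst h'
      · exact (h1 s c h' le_rfl).trans (h2 c t h le_rfl)
  refine k2 (-1) (fun s t hst h => key hst (Or.inl h)) (fun s t hst h => ?_) a b hab
  revert s t
  have m1 : ∀ s t : ℝ, s < t → 1 ≤ s → comp w s < comp w t := fun s t hst h =>
    key hst (Or.inr (Or.inr (Or.inr (Or.inr h))))
  have m2 : ∀ s t : ℝ, s < t → 1 / 4 ≤ s → comp w s < comp w t := by
    intro s t hst hs
    rcases le_or_gt t 1 with h | h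
    · exact key hst (Or.inr (Or.inr (Or.inr (Or.inl ⟨hs, h⟩))))
    · rcases le_or_gt 1 s with h' | h'
      · exact m1 s t hst h'
      · exact (key h' (Or.inr (Or.inr (Or.inr (Or.inl ⟨hs, le_rfl⟩))))).trans (m1 1 t h le_rfl)
  have m3 : ∀ s t : ℝ, s < t → -(1 / 4) ≤ s → comp w s < comp w t := by
    intro s t hst hs
    rcases le_or_gt t (1 / 4) with h | h
    · exact key hst (Or.inr (Or.inr (Or.inl ⟨abs_le.2 ⟨hs, by linarith⟩,
        abs_le.2 ⟨by linarith, h⟩⟩)))
    · rcases le_or_gt (1 / 4) s with h' | h'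
      · exact m2 s t hst h'
      · exact (key h' (Or.inr (Or.inr (Or.inl ⟨abs_le.2 ⟨hs, by linarith⟩,
          by rw [abs_of_pos] <;> norm_num⟩)))).trans (m2 _ t h le_rfl)
  intro s t hst hs
  rcases le_or_gt t (-(1 / 4)) with h | h
  · exact key hst (Or.inr (Or.inl ⟨hs, h⟩))
  · rcases le_or_gt (-(1 / 4)) s with h' | h'
    · exact m3 s t hst h'
    · exact (key h' (Or.inr (Or.inl ⟨hs, le_rfl⟩))).trans (m3 _ t h le_rfl)

theorem comp_bound (w : ℝ) (h0 : 0 < w) (h1 : w ≤ 1 / 16) (y : ℝ) : |comp w y - y| ≤ 1 := by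
  have hm := (comp_strictMono h0 h1).monotone
  rcases le_total y (-1) with h | h
  · rw [comp_bot h]; norm_num
  · rcases le_total 1 y with h' | h'
    · rw [comp_top h']; norm_num
    · have e1 : comp w (-1) = -(1 / 16) := by rw [comp_bot le_rfl]; norm_num
      have e2 : comp w 1 = 1 / 16 := by rw [comp_top le_rfl]; norm_num
      rcases le_total y (-(1 / 4)) with h2 | h2
      · rw [comp_down h2 h, abs_le]
        constructor <;> nlinarith
      · rcases le_total (1 / 4) y with h3 | h3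
        · rw [comp_up h3 h', abs_le]
          constructor <;> nlinarith
        · rw [comp_mid (abs_le.2 ⟨h2, h3⟩), abs_le]
          constructor <;> nlinarith

/-- The values of the compression on the strip. -/
theorem abs_comp_le {w y : ℝ} (h0 : 0 < w) (h1 : w ≤ 1 / 16) (h : |y| ≤ 1) :
    |comp w y| ≤ 1 / 16 := by
  have hm := (comp_strictMono h0 h1).monotone
  obtain ⟨h2, h3⟩ := abs_le.1 h
  have e1 : comp w (-1) = -(1 / 16) := by rw [comp_bot le_rfl]; norm_num
  have e2 : comp w 1 = 1 / 16 := by rw [comp_top le_rfl]; norm_num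
  exact abs_le.2 ⟨by rw [← e1]; exact hm h2, by rw [← e2]; exact hm h3⟩

theorem abs_comp_le_w {w y : ℝ} (h0 : 0 < w) (h : |y| ≤ 1 / 4) : |comp w y| ≤ w := by
  rw [comp_mid h, abs_mul, abs_of_pos (by linarith : 0 < 2 * w)]
  nlinarith

end St

end Pool.Agent.RAY
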