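import Pool.Agent.RAYH.Win

/-!
# RAYH: the functions `β` and `λ` (owner of the proofs: helper24)

`be x X = b (x - w) Φ (X - u (vw w))`, `w` the slot nearest to `x`: the amount by which the leaf with
the label `X` is lowered at `x`.  `lm X = Λ (X - u v)` in the zone of the arc `v`.
-/

set_option autoImplicit false

namespace Pool.Agent.RAY

namespace St

variable (L : Lv)

/-- The function `β`. -/
noncomputable def be (x X : ℝ) : ℝ :=
  bb (x - round x) * ph (X - L.u (L.vw (round x)))

/-- The formula with any slot near `x`. -/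
theorem be_near {x : ℝ} (X : ℝ) {n : ℤ} (h : |x - n| < 13 / 16) :
    be L x X = bb (x - n) * ph (X - L.u (L.vw n)) := by
  unfold be
  by_cases hn : round x = n
  · rw [hn]
  · have h1 : |x - round x| ≤ 1 / 2 := abs_sub_round x
    have h2 : (1 : ℝ) ≤ |(n : ℝ) - round x| := by
      have : (1 : ℤ) ≤ |n - round x| := Int.one_le_abs (sub_ne_zero.2 (Ne.symm hn))
      exact_mod_cast this
    have h3 : |(n : ℝ) - round x| ≤ |x - round x| + |x - n| := by
      calc |(n : ℝ) - round x| = |(x - round x) - (x - n)| := by ring_nf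
        _ ≤ _ := abs_sub _ _
    rw [bb_eq_zero (by linarith : 3 / 16 ≤ |x - round x|),
      bb_eq_zero (by linarith : 3 / 16 ≤ |x - n|), zero_mul, zero_mul]

theorem be_eq_zero {x : ℝ} (X : ℝ) {n : ℤ} (h1 : 3 / 16 ≤ |x - n|) (h : |x - n| < 13 / 16) :
    be L x X = 0 := by
  rw [be_near L X h, bb_eq_zero h1, zero_mul]

theorem continuous_be : Continuous fun z : ℝ × ℝ => be L z.1 z.2 := by
  rw [continuous_iff_continuousAt]
  rintro ⟨x, X⟩
  have h1 : ∀ᶠ z : ℝ × ℝ in nhds (x, X), |z.1 - round x| < 13 / 16 := by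
    have hc : Continuous fun z : ℝ × ℝ => |z.1 - round x| := by fun_prop
    refine hc.continuousAt.eventually (gt_mem_nhds ?_)
    exact (abs_sub_round x).trans_lt (by norm_num)
  have h2 : (fun z : ℝ × ℝ => bb (z.1 - round x) * ph (z.2 - L.u (L.vw (round x))))
      =ᶠ[nhds (x, X)] fun z => be L z.1 z.2 := by
    filter_upwards [h1] with z hz
    rw [be_near L z.2 hz]
  refine ContinuousAt.congr ?_ h2
  refine Continuous.continuousAt ?_
  exact (continuous_bb.comp (by fun_prop)).mul (continuous_ph.comp (by fun_prop))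

theorem be_nonneg (x X : ℝ) : 0 ≤ be L x X := mul_nonneg (bb_nonneg _) (ph_nonneg _)

theorem be_le_one (x X : ℝ) : be L x X ≤ 1 :=
  mul_le_one₀ (bb_le_one _) (ph_nonneg _) (ph_le_one _)

theorem be_anti (x : ℝ) : Antitone (be L x) := fun a b h =>
  mul_le_mul_of_nonneg_left (ph_anti (by linarith)) (bb_nonneg _)

theorem be_self (x : ℝ) : be L x x = 0 := by
  unfold be
  have h1 : (L.u (L.vw (round x)) : ℝ) ≤ round x := by exact_mod_cast L.u_vw_le (round x)
  rcases le_or_gt (3 / 16) |x - round x| with h | h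
  · rw [bb_eq_zero h, zero_mul]
  · have := (abs_lt.1 h).1
    rw [ph_eq_zero (by linarith), mul_zero]

theorem be_add_q (x X : ℝ) (c : ℤ) :
    be L (x + c * L.next.q) (X + c * L.next.q) = be L x X := by
  have h1 : |x + c * L.next.q - ((round x + c * L.next.q : ℤ) : ℝ)| < 13 / 16 := by
    push_cast
    rw [add_sub_add_right_eq_sub]
    exact (abs_sub_round x).trans_lt (by norm_num)
  rw [be_near L _ h1]
  unfold be
  rw [L.vw_add_q, L.u_add_q]
  push_cast
  rw [add_sub_add_right_eq_sub, add_sub_add_right_eq_sub]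

/-- Equivariance off the exceptional labels. -/
theorem be_add_p (x : ℝ) {X : ℝ} (h : ∀ c : ℤ, X ≤ L.u (L.ex - 1) - 9 / 32 + c * L.next.q ∨
    L.u (L.ex + 1) - 11 / 8 + c * L.next.q ≤ X) :
    be L (x + L.next.p) (X + L.next.p) = be L x X := by
  have h1 : |x + L.next.p - ((round x + L.next.p : ℤ) : ℝ)| < 13 / 16 := by
    push_cast
    rw [add_sub_add_right_eq_sub]
    exact (abs_sub_round x).trans_lt (by norm_num)
  rw [be_near L _ h1]
  unfold be
  set n := round x
  have hM := L.M_pos
  by_cases hv : ∀ c : ℤ, L.vw n ≠ L.ex + c * L.q ∧ L.vw n ≠ L.ex - 1 + c * L.q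
  · rw [L.vw_add_p hv, L.u_add_p_of_ne fun c => (hv c).1]
    push_cast
    rw [add_sub_add_right_eq_sub, add_sub_add_right_eq_sub]
  · push Not at hv
    obtain ⟨c, hc⟩ := hv
    have hc' : L.vw n = L.ex + c * L.q ∨ L.vw n = L.ex - 1 + c * L.q := by
      by_cases h2 : L.vw n = L.ex + c * L.q
      · exact Or.inl h2
      · exact Or.inr (hc h2)
    -- the two arcs
    have e1 : L.u (L.ex - 1 + c * L.q) = L.u (L.ex - 1) + c * L.next.q := L.u_add_q _ _
    have e2 : L.u (L.ex + c * L.q) = L.u L.ex + c * L.next.q := L.u_add_q _ _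
    have e3 : L.u (L.ex - 1) + L.M ≤ L.u L.ex := by
      have := L.M_le_u_succ (L.ex - 1)
      rw [sub_add_cancel] at this
      omega
    have e4 : L.u L.ex + L.M ≤ L.u (L.ex + 1) := by
      have := L.M_le_u_succ L.ex
      omega
    have e5 : L.u (L.ex - 1 + c * L.q + L.p) = L.u (L.ex - 1) + c * L.next.q + L.next.p := by
      rw [L.u_add_p_of_ne, e1]
      intro d hd
      have hq2 : 2 ≤ L.q := by have := L.hr; have := L.hrq; omega
      have h3 : (c - d) * L.q = 1 := by linear_combination hd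
      have h4 : L.q ∣ 1 := ⟨c - d, by rw [← h3]; ring⟩
      have := Int.le_of_dvd one_pos h4
      omega
    have e6 : L.u (L.ex + c * L.q + L.p) = L.u L.ex + c * L.next.q + L.next.p - 1 := by
      have h3 : L.ex + c * L.q + L.p = L.ex + L.p + c * L.q := by ring
      rw [h3, L.u_add_q, L.u_ex_add_p]
      ring
    have hu1 : L.u (L.ex - 1) + c * L.next.q ≤ L.u (L.vw n) ∧
        L.u (L.vw n) ≤ L.u L.ex + c * L.next.q := by
      rcases hc' with h2 | h2 <;> rw [h2] <;> [rw [e2]; rw [e1]] <;> constructor <;> omega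
    have hu2 : L.u (L.ex - 1) + c * L.next.q + L.next.p ≤ L.u (L.vw (n + L.next.p)) ∧
        L.u (L.vw (n + L.next.p)) ≤ L.u L.ex + c * L.next.q + L.next.p := by
      rcases L.vw_add_p' hc' with h2 | h2 <;> rw [h2] <;> [rw [e6]; rw [e5]] <;>
        constructor <;> omega
    have hM' : 31 ≤ L.M := by
      have := L.q_pos
      unfold Lv.M
      omega
    have r1 : (L.u (L.ex - 1) : ℝ) + c * L.next.q ≤ L.u (L.vw n) := by exact_mod_cast hu1.1
    have r2 : (L.u (L.vw n) : ℝ) ≤ L.u L.ex + c * L.next.q := by exact_mod_cast hu1.2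
    have r3 : (L.u (L.ex - 1) : ℝ) + c * L.next.q + L.next.p ≤ L.u (L.vw (n + L.next.p)) := by
      exact_mod_cast hu2.1
    have r4 : (L.u (L.vw (n + L.next.p)) : ℝ) ≤ L.u L.ex + c * L.next.q + L.next.p := by
      exact_mod_cast hu2.2
    have r5 : (L.u L.ex : ℝ) + 31 ≤ L.u (L.ex + 1) := by
      have : L.u L.ex + 31 ≤ L.u (L.ex + 1) := by omega
      exact_mod_cast this
    push_cast
    rw [add_sub_add_right_eq_sub]
    rcases h c with h2 | h2
    · rw [ph_eq_one (by linarith), ph_eq_one (by linarith)]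
    · rw [ph_eq_zero (by linarith), ph_eq_zero (by linarith)]

open Classical in
/-- The function `λ`. -/
noncomputable def lm (X : ℝ) : ℝ := if ∃ v : ℤ, L.u v = round X then la (X - round X) else 0

open Classical in
theorem lm_near {X : ℝ} {n : ℤ} (h : |X - n| < 23 / 32) :
    lm L X = if ∃ v : ℤ, L.u v = n then la (X - n) else 0 := by
  unfold lm
  by_cases hn : round X = n
  · rw [hn]
  · have h1 : |X - round X| ≤ 1 / 2 := abs_sub_round X
    have h2 : (1 : ℝ) ≤ |(n : ℝ) - round X| := by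
      have : (1 : ℤ) ≤ |n - round X| := Int.one_le_abs (sub_ne_zero.2 (Ne.symm hn))
      exact_mod_cast this
    have h3 : |(n : ℝ) - round X| ≤ |X - round X| + |X - n| := by
      calc |(n : ℝ) - round X| = |(X - round X) - (X - n)| := by ring_nf
        _ ≤ _ := abs_sub _ _
    have key : ∀ t : ℝ, 9 / 32 ≤ |t| → la t = 0 := by
      intro t ht
      refine la_eq_zero ?_
      rcases le_abs.1 ht with h4 | h4
      · exact Or.inr (by linarith)
      · exact Or.inl (by linarith)
    rw [key _ (by linarith : 9 / 32 ≤ |X - round X|), key _ (by linarith : 9 / 32 ≤ |X - n|)]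
    simp

/-- In the zone of the arc `v`. -/
theorem lm_zone {X : ℝ} {v : ℤ} (h1 : L.u v - 9 / 32 ≤ X) (h2 : X ≤ L.u v - 7 / 32) :
    lm L X = la (X - L.u v) := by
  rw [lm_near L (n := L.u v) (by rw [abs_lt]; constructor <;> linarith), if_pos ⟨v, rfl⟩]

theorem lm_eq_zero {X : ℝ} (h : ∀ v : ℤ, X ≤ L.u v - 9 / 32 ∨ L.u v - 7 / 32 ≤ X) :
    lm L X = 0 := by
  unfold lm
  split_ifs with h1
  · obtain ⟨v, hv⟩ := h1
    rw [← hv]
    refine la_eq_zero ?_
    rcases h v with h2 | h2
    · exact Or.inl (by linarith)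
    · exact Or.inr (by linarith)
  · rfl

/-- Between the zones. -/
theorem lm_sector {X : ℝ} {v : ℤ} (h1 : L.u (v - 1) - 7 / 32 ≤ X) (h2 : X ≤ L.u v - 9 / 32) :
    lm L X = 0 := by
  refine lm_eq_zero L fun j => ?_
  rcases lt_or_ge j v with hj | hj
  · right
    have : L.u j ≤ L.u (v - 1) := L.u_strictMono.monotone (by omega)
    have h3 : (L.u j : ℝ) ≤ L.u (v - 1) := by exact_mod_cast this
    linarith
  · left
    have : L.u v ≤ L.u j := L.u_strictMono.monotone hj
    have h3 : (L.u v : ℝ) ≤ L.u j := by exact_mod_cast this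
    linarith

theorem continuous_lm : Continuous (lm L) := by
  classical
  rw [continuous_iff_continuousAt]
  intro X
  have h1 : ∀ᶠ Y : ℝ in nhds X, |Y - round X| < 23 / 32 := by
    have hc : Continuous fun Y : ℝ => |Y - round X| := by fun_prop
    refine hc.continuousAt.eventually (gt_mem_nhds ?_)
    exact (abs_sub_round X).trans_lt (by norm_num)
  have h2 : (fun Y : ℝ => if ∃ v : ℤ, L.u v = round X then la (Y - round X) else 0)
      =ᶠ[nhds X] lm L := by
    filter_upwards [h1] with Y hY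
    rw [lm_near L hY]
  refine ContinuousAt.congr ?_ h2
  by_cases h3 : ∃ v : ℤ, L.u v = round X
  · simp only [h3, if_true]
    exact (continuous_la.comp (by fun_prop)).continuousAt
  · simp only [h3, if_false]
    exact continuousAt_const

theorem lm_nonneg (X : ℝ) : 0 ≤ lm L X := by
  unfold lm
  split_ifs
  · exact la_nonneg _
  · exact le_rfl

theorem lm_le (X : ℝ) : lm L X ≤ 1 / 2 := by
  unfold lm
  split_ifs
  · exact la_le _
  · norm_num

theorem lm_add_q (X : ℝ) (c : ℤ) : lm L (X + c * L.next.q) = lm L X := by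
  have h1 : |X + c * L.next.q - ((round X + c * L.next.q : ℤ) : ℝ)| < 23 / 32 := by
    push_cast
    rw [add_sub_add_right_eq_sub]
    exact (abs_sub_round X).trans_lt (by norm_num)
  rw [lm_near L h1]
  unfold lm
  have h2 : (∃ v : ℤ, L.u v = round X + c * L.next.q) ↔ ∃ v : ℤ, L.u v = round X := by
    constructor
    · rintro ⟨v, hv⟩
      refine ⟨v + (-c) * L.q, ?_⟩
      rw [L.u_add_q, hv]
      ring
    · rintro ⟨v, hv⟩
      exact ⟨v + c * L.q, by rw [L.u_add_q, hv]⟩
  push_cast
  rw [add_sub_add_right_eq_sub]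
  by_cases h5 : ∃ v : ℤ, L.u v = round X
  · rw [if_pos (h2.2 h5), if_pos h5]
  · rw [if_neg (fun h6 => h5 (h2.1 h6)), if_neg h5]

/-- Equivariance off the exceptional labels. -/
theorem lm_add_p {X : ℝ} (h : ∀ c : ℤ, X ≤ L.u (L.ex - 1) - 9 / 32 + c * L.next.q ∨
    L.u (L.ex + 1) - 11 / 8 + c * L.next.q ≤ X) :
    lm L (X + L.next.p) = lm L X := by
  classical
  have h1 : |X + L.next.p - ((round X + L.next.p : ℤ) : ℝ)| < 23 / 32 := by
    push_cast
    rw [add_sub_add_right_eq_sub]
    exact (abs_sub_round X).trans_lt (by norm_num)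
  rw [lm_near L h1]
  unfold lm
  push_cast
  rw [add_sub_add_right_eq_sub]
  rcases le_or_gt (X - round X) (-(9 / 32)) with h2 | h2
  · rw [la_eq_zero (Or.inl h2)]; simp
  rcases le_or_gt (-(7 / 32)) (X - round X) with h3 | h3
  · rw [la_eq_zero (Or.inr h3)]; simp
  -- `X` is in the zone of `round X`
  have hM' : 31 ≤ L.M := by
    have := L.q_pos
    unfold Lv.M
    omega
  have hex : ∀ c : ℤ, round X ≠ L.u L.ex + c * L.next.q ∧
      round X ≠ L.u L.ex - 1 + c * L.next.q := by
    intro c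
    have e3 : L.u (L.ex - 1) + L.M ≤ L.u L.ex := by
      have := L.M_le_u_succ (L.ex - 1)
      rw [sub_add_cancel] at this
      omega
    have e4 : L.u L.ex + L.M ≤ L.u (L.ex + 1) := by
      have := L.M_le_u_succ L.ex
      omega
    have r3 : (L.u (L.ex - 1) : ℝ) + 31 ≤ L.u L.ex := by
      have : L.u (L.ex - 1) + 31 ≤ L.u L.ex := by omega
      exact_mod_cast this
    have r4 : (L.u L.ex : ℝ) + 31 ≤ L.u (L.ex + 1) := by
      have : L.u L.ex + 31 ≤ L.u (L.ex + 1) := by omega
      exact_mod_cast this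
    constructor
    · intro h4
      have h5 : ((round X : ℤ) : ℝ) = L.u L.ex + c * L.next.q := by rw [h4]; push_cast; ring
      rw [h5] at h2 h3
      rcases h c with h6 | h6 <;> linarith
    · intro h4
      have h5 : ((round X : ℤ) : ℝ) = L.u L.ex - 1 + c * L.next.q := by rw [h4]; push_cast; ring
      rw [h5] at h2 h3
      rcases h c with h6 | h6 <;> linarith
  have h4 : (∃ v : ℤ, L.u v = round X + L.next.p) ↔ ∃ v : ℤ, L.u v = round X := by
    constructor
    · rintro ⟨v, hv⟩
      by_cases h5 : ∀ c : ℤ, v - L.p ≠ L.ex + c * L.q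
      · refine ⟨v - L.p, ?_⟩
        have h6 := L.u_add_p_of_ne h5
        rw [sub_add_cancel, hv] at h6
        omega
      · exfalso
        push Not at h5
        obtain ⟨c, hc⟩ := h5
        have h7 : v = L.ex + L.p + c * L.q := by omega
        rw [h7, L.u_add_q, L.u_ex_add_p] at hv
        exact (hex c).2 (by omega)
    · rintro ⟨v, hv⟩
      refine ⟨v + L.p, ?_⟩
      rw [L.u_add_p_of_ne, hv]
      intro c hc
      rw [hc, L.u_add_q] at hv
      exact (hex c).1 hv.symm
  by_cases h5 : ∃ v : ℤ, L.u v = round X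
  · rw [if_pos (h4.2 h5), if_pos h5]
  · rw [if_neg (fun h6 => h5 (h4.1 h6)), if_neg h5]

end St

end Pool.Agent.RAY
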