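import Pool.Agent.RAYH.Maps

/-!
# RAYH: equivariance off the double sector, the map `h` (owner of the proofs: helper87 / helper24)
-/

set_option autoImplicit false

namespace Pool.Agent.RAY

namespace St

variable (L : Lv) {w : ℝ} (h0 : 0 < w) (h1 : w ≤ 1 / 16)

/-- On the level of the labels: `g (T (Ψ z)) = R (g (Ψ z))` if the label `q' z.1` is not
exceptional. -/
theorem gg_rot_Ps {z : Pl} (h : ∀ c : ℤ, L.next.q * z.1 ≤ L.u (L.ex - 1) - 9 / 32 + c * L.next.q ∨
    L.u (L.ex + 1) - 11 / 8 + c * L.next.q ≤ L.next.q * z.1) :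
    gg L h0 h1 (HH.rot (L.next.p / L.next.q) (Ps L z)) =
      HH.rot (L.p / L.q) (gg L h0 h1 (Ps L z)) := by
  have hq' := q_pos' L.next
  have e : ∀ x : ℝ, L.next.q * (x + L.next.p / L.next.q) = L.next.q * x + L.next.p := by
    intro x
    field_simp
  have h2 : HH.rot (L.next.p / L.next.q) (Ps L z) = Ps L (HH.rot (L.next.p / L.next.q) z) := by
    rw [Ps_apply, Ps_apply]
    simp only [HH.rot_apply]
    rw [e, show L.next.q * z.1 + L.next.p + sg L z.2 = L.next.q * z.1 + sg L z.2 + L.next.p by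
      ring, be_add_p L _ h]
    congr 1
    ring
  rw [h2, gg_Ps, gg_Ps]
  simp only [HH.rot_apply]
  rw [e, eta_add_p L h0 h1 h, lm_add_p L h, add_div]

/-- Equivariance off the double sector. -/
theorem gg_rot {z : Pl} (h : ∀ c : ℤ, 1 ≤ |L.q * z.1 - (L.ex - 1 / 4) - c * L.q|) :
    gg L h0 h1 (HH.rot (L.next.p / L.next.q) ((gg L h0 h1)⁻¹ z)) = HH.rot (L.p / L.q) z := by
  have hq := q_pos' L
  obtain ⟨z', hz'⟩ := exists_Ps L ((gg L h0 h1)⁻¹ z)
  have h2 : gg L h0 h1 (Ps L z') = z := by rw [hz', HH.apply_inv_self]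
  have h3 := gg_Ps L h0 h1 z'
  rw [h2] at h3
  rw [← hz', gg_rot_Ps L h0 h1, h2]
  refine eta_ex L h0 h1 fun c => ?_
  have h4 := h c
  rw [h3] at h4
  simp only at h4
  rwa [mul_div_cancel₀ _ hq.ne'] at h4

/-- Near the two ends the conjugated rotation is the product map `ρ`. -/
theorem gg_rot_far {z : Pl} (h : 1 / 16 ≤ |z.2|) :
    gg L h0 h1 (HH.rot (L.next.p / L.next.q) ((gg L h0 h1)⁻¹ z)) =
      HH.rot (L.p / L.q) (mR L h0 h1 z) := by
  have hq := q_pos' L
  have hq' := q_pos' L.next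
  obtain ⟨z', hz'⟩ := exists_Ps L ((gg L h0 h1)⁻¹ z)
  have h2 : gg L h0 h1 (Ps L z') = z := by rw [hz', HH.apply_inv_self]
  have h3 := gg_Ps L h0 h1 z'
  rw [h2] at h3
  -- the height of `z'`
  have h4 : 1 ≤ z'.2 ∨ z'.2 ≤ -1 := by
    by_contra h5
    push Not at h5
    obtain ⟨h6, h7⟩ := h5
    rw [h3] at h
    simp only at h
    set t := z'.2 - 1 / 2 * ch3 z'.2 * lm L (L.next.q * z'.1) with ht
    have h8 : t < 1 := by
      have := mV_mono L (L.next.q * z'.1) h6
      simp only at this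
      rw [ch3_eq_zero (Or.inr le_rfl), mul_zero, zero_mul, sub_zero] at this
      exact this
    have h9 : -1 < t := by
      have := mV_mono L (L.next.q * z'.1) h7
      simp only at this
      rw [ch3_eq_zero (Or.inl le_rfl), mul_zero, zero_mul, sub_zero] at this
      exact this
    have e1 : comp w (-1) = -(1 / 16) := by rw [comp_bot le_rfl]; norm_num
    have e2 : comp w 1 = 1 / 16 := by rw [comp_top le_rfl]; norm_num
    have h10 := comp_strictMono h0 h1 h8
    have h11 := comp_strictMono h0 h1 h9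
    rw [e2] at h10
    rw [e1] at h11
    have := abs_lt.2 ⟨h11, h10⟩
    linarith
  have h5 : HH.rot (L.next.p / L.next.q) (Ps L z') = Ps L (HH.rot (L.next.p / L.next.q) z') := by
    rcases h4 with h4 | h4
    · rw [Ps_top L (by linarith), Ps_top L (by simp only [HH.rot_apply]; linarith)]
    · rw [Ps_bot L h4, Ps_bot L (by simpa only [HH.rot_apply] using h4)]
      simp only [HH.rot_apply]
      congr 1
      ring
  have h6 : ch3 z'.2 = 0 := ch3_eq_zero (by tauto)
  rw [h6, mul_zero, zero_mul, sub_zero] at h3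
  rw [← hz', h5, gg_Ps, mR_apply, h3]
  simp only [HH.rot_apply]
  rw [h6, mul_zero, zero_mul, sub_zero]
  unfold rho
  rw [mul_div_cancel₀ _ hq.ne', OrderIso.symm_apply_apply, mul_add, mul_div_cancel₀ _ hq'.ne']
  congr 1
  ring

/-- Off the double sector `ρ` is the identity. -/
theorem rho_eq {x : ℝ} (h : ∀ c : ℤ, 1 ≤ |L.q * x - (L.ex - 1 / 4) - c * L.q|) :
    rho L h0 h1 x = x := by
  have hq := q_pos' L
  have h2 := eta_add_p L h0 h1 (X := (eta L h0 h1).symm (L.q * x))
    (eta_ex L h0 h1 fun c => by rw [OrderIso.apply_symm_apply]; exact h c)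
  unfold rho
  rw [h2, OrderIso.apply_symm_apply, add_sub_cancel_right, mul_div_cancel_left₀ _ hq.ne']

theorem kap_near {z : Pl} (h : |z.2| ≤ 1 / 16) : kap L h0 h1 z = z := by
  have h2 : (mK L h0 h1).toHH z = mR L h0 h1 z := by
    rw [mR_apply]
    simp only [HH.Horz.toHH_apply, mK]
    rw [cl_of_nonpos (by linarith)]
    congr 1
    ring
  rw [kap, HH.mul_apply, h2, HH.inv_apply_self]

theorem kap_far {z : Pl} (h : 1 / 8 ≤ |z.2|) : mR L h0 h1 (kap L h0 h1 z) = z := by
  have h2 : (mK L h0 h1).toHH z = z := by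
    simp only [HH.Horz.toHH_apply, mK]
    rw [cl_of_one_le (by linarith)]
    ext <;> simp
  rw [kap, HH.mul_apply, h2, HH.apply_inv_self]

theorem hh_supp (z : Pl) (h : ∀ n : ℤ, |L.q * z.1 - (L.ex - 1 / 4) - n * L.q| < 1 → 1 / 8 ≤ |z.2|) :
    hh L h0 h1 z = z := by
  by_cases hz : ∀ c : ℤ, 1 ≤ |L.q * z.1 - (L.ex - 1 / 4) - c * L.q|
  · have h2 : mR L h0 h1 z = z := by rw [mR_apply, rho_eq L h0 h1 hz]
    have h3 : (mK L h0 h1).toHH z = z := by
      simp only [HH.Horz.toHH_apply, mK]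
      rw [rho_eq L h0 h1 hz]
      ext <;> simp
      ring
    have h4 : kap L h0 h1 z = z := by
      rw [kap, HH.mul_apply, h3]
      conv_lhs => rw [← h2]
      exact HH.inv_apply_self _ _
    simp only [hh, HH.mul_apply]
    rw [h4, gg_rot L h0 h1 hz, HH.inv_apply_self]
  · push Not at hz
    obtain ⟨n, hn⟩ := hz
    have h2 := h n hn
    have h3 := kap_far L h0 h1 h2
    have h4 : (kap L h0 h1 z).2 = z.2 := by
      have h6 := congrArg Prod.snd (mR_apply L h0 h1 (kap L h0 h1 z))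
      rw [h3] at h6
      exact h6.symm
    have h5 := gg_rot_far L h0 h1 (z := kap L h0 h1 z) (by rw [h4]; linarith)
    simp only [hh, HH.mul_apply]
    rw [h5, h3, HH.inv_apply_self]

end St

end Pool.Agent.RAY
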