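import Mathlib

/-!
# RAYH: piecewise linear order isomorphisms of the line (owner of the proofs: helper56)
-/

set_option autoImplicit false

namespace Pool.Agent.RAY

namespace St

/-- The piecewise linear function with value `c i` at the integer `i`. -/
noncomputable def pl (c : ℤ → ℝ) (s : ℝ) : ℝ := c ⌊s⌋ + Int.fract s * (c (⌊s⌋ + 1) - c ⌊s⌋)

theorem pl_int (c : ℤ → ℝ) (i : ℤ) : pl c i = c i := by simp [pl]

theorem le_pl {c : ℤ → ℝ} (hc : StrictMono c) (s : ℝ) : c ⌊s⌋ ≤ pl c s := by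
  have h := hc (show ⌊s⌋ < ⌊s⌋ + 1 by omega)
  have := mul_nonneg (Int.fract_nonneg s) (sub_nonneg.2 h.le)
  unfold pl
  linarith

theorem pl_lt {c : ℤ → ℝ} (hc : StrictMono c) (s : ℝ) : pl c s < c (⌊s⌋ + 1) := by
  have h := hc (show ⌊s⌋ < ⌊s⌋ + 1 by omega)
  have := mul_lt_mul_of_pos_right (Int.fract_lt_one s) (sub_pos.2 h)
  unfold pl
  linarith

theorem pl_strictMono {c : ℤ → ℝ} (hc : StrictMono c) : StrictMono (pl c) := by
  intro s t hst
  rcases (Int.floor_mono hst.le).eq_or_lt with h | h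
  · have h1 := hc (show ⌊s⌋ < ⌊s⌋ + 1 by omega)
    have h2 : Int.fract s < Int.fract t := by
      unfold Int.fract
      rw [h]
      linarith
    have := mul_lt_mul_of_pos_right h2 (sub_pos.2 h1)
    unfold pl
    rw [← h]
    linarith
  · exact (pl_lt hc s).trans_le ((hc.monotone (by omega)).trans (le_pl hc t))

theorem per_int {c : ℤ → ℝ} {N : ℤ} {T : ℝ} (h : ∀ i, c (i + N) = c i + T) (i m : ℤ) :
    c (i + m * N) = c i + m * T := by
  induction m using Int.induction_on with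
  | zero => simp
  | succ m ih =>
    rw [show i + ((m : ℤ) + 1) * N = (i + m * N) + N by ring, h, ih]
    push_cast
    ring
  | pred m ih =>
    have h1 := h (i + (-(m : ℤ) - 1) * N)
    rw [show i + (-(m : ℤ) - 1) * N + N = i + -(m : ℤ) * N by ring, ih] at h1
    push_cast at h1 ⊢
    linarith

theorem exists_idx {c : ℤ → ℝ} (hc : StrictMono c) {N : ℤ} {T : ℝ} (hT : 0 < T)
    (h : ∀ i, c (i + N) = c i + T) (y : ℝ) : ∃ i, c i ≤ y ∧ y < c (i + 1) := by
  have hlow : ∃ n, c n ≤ y := by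
    refine ⟨0 + ⌊(y - c 0) / T⌋ * N, ?_⟩
    rw [per_int h]
    have h1 := Int.floor_le ((y - c 0) / T)
    rw [le_div_iff₀ hT] at h1
    linarith
  have hup : ∃ b : ℤ, ∀ n, c n ≤ y → n ≤ b := by
    refine ⟨0 + (⌊(y - c 0) / T⌋ + 1) * N, fun n hn => ?_⟩
    by_contra hcon
    push Not at hcon
    have h1 := hc hcon
    rw [per_int h] at h1
    have h2 := Int.lt_floor_add_one ((y - c 0) / T)
    rw [div_lt_iff₀ hT] at h2
    push_cast at h1
    linarith
  obtain ⟨n, hn, hmax⟩ := Int.exists_greatest_of_bdd hup hlow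
  refine ⟨n, hn, ?_⟩
  by_contra hcon
  have := hmax (n + 1) (not_lt.1 hcon)
  omega

theorem pl_surjective {c : ℤ → ℝ} (hc : StrictMono c) {N : ℤ} {T : ℝ} (_hN : 0 < N) (hT : 0 < T)
    (h : ∀ i, c (i + N) = c i + T) : Function.Surjective (pl c) := by
  intro y
  obtain ⟨i, h1, h2⟩ := exists_idx hc hT h y
  have h3 : 0 < c (i + 1) - c i := by linarith
  have h4 : 0 ≤ (y - c i) / (c (i + 1) - c i) := div_nonneg (by linarith) h3.le
  have h5 : (y - c i) / (c (i + 1) - c i) < 1 := by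
    rw [div_lt_one h3]
    linarith
  refine ⟨i + (y - c i) / (c (i + 1) - c i), ?_⟩
  have h6 : ⌊(i : ℝ) + (y - c i) / (c (i + 1) - c i)⌋ = i := by
    rw [Int.floor_eq_iff]
    constructor <;> linarith
  unfold pl Int.fract
  rw [h6, add_sub_cancel_left, div_mul_cancel₀ _ h3.ne']
  ring

/-- If `c (i + N) = c i + T` for the two neighbours of `s`, then `pl c (s + N) = pl c s + T`. -/
theorem pl_add {c : ℤ → ℝ} {N : ℤ} {T s : ℝ} (h0 : c (⌊s⌋ + N) = c ⌊s⌋ + T)
    (h1 : c (⌊s⌋ + 1 + N) = c (⌊s⌋ + 1) + T) : pl c (s + N) = pl c s + T := by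
  unfold pl
  rw [Int.floor_add_intCast, Int.fract_add_intCast, show ⌊s⌋ + N + 1 = ⌊s⌋ + 1 + N by ring, h0, h1]
  ring

/-- The same, if `s` is perhaps an integer. -/
theorem pl_add' {c : ℤ → ℝ} {N : ℤ} {T s : ℝ} (h0 : c (⌊s⌋ + N) = c ⌊s⌋ + T)
    (h1 : (⌊s⌋ : ℝ) ≠ s → c (⌊s⌋ + 1 + N) = c (⌊s⌋ + 1) + T) : pl c (s + N) = pl c s + T := by
  by_cases h : (⌊s⌋ : ℝ) = s
  · have h2 : s + N = ((⌊s⌋ + N : ℤ) : ℝ) := by
      push_cast
      rw [h]
    rw [h2, pl_int, h0]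
    conv_rhs => rw [← h]
    rw [pl_int]
  · exact pl_add h0 (h1 h)

/-- The order isomorphism. -/
noncomputable def plIso (c : ℤ → ℝ) (hc : StrictMono c) (hs : Function.Surjective (pl c)) :
    ℝ ≃o ℝ := (pl_strictMono hc).orderIsoOfSurjective _ hs

@[simp] theorem plIso_apply {c : ℤ → ℝ} (hc : StrictMono c) (hs : Function.Surjective (pl c))
    (s : ℝ) : plIso c hc hs s = pl c s := rfl

end St

end Pool.Agent.RAY
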