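import Pool.Agent.RAYH.Win
import Pool.Agent.RAYH.PL

/-!
# RAYH: the map of the labels (owner of the proofs: helper56)

Six knots per sector: `u v - 19/16 ↦ v - 1/4`, `u v - 1/2 ↦ v - w`, `u v - 3/8 ↦ v + w`,
`u v - 21/64 ↦ v + 1/4`, `u v - 9/32 ↦ v + 1/2 - w`, `u (v+1) - 11/8 ↦ v + 1/2 + w`.
-/

set_option autoImplicit false

namespace Pool.Agent.RAY

namespace St

/-- The offsets of the knots. -/
noncomputable def fa : ℤ → ℝ := fun r =>
  if r = 0 then -(19 / 16) else if r = 1 then -(1 / 2) else if r = 2 then -(3 / 8) else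
  if r = 3 then -(21 / 64) else if r = 4 then -(9 / 32) else -(11 / 8)

/-- The offsets of the values. -/
noncomputable def fb (w : ℝ) : ℤ → ℝ := fun r =>
  if r = 0 then -(1 / 4) else if r = 1 then -w else if r = 2 then w else
  if r = 3 then 1 / 4 else if r = 4 then 1 / 2 - w else 1 / 2 + w

/-- The knots. -/
noncomputable def ka (L : Lv) (i : ℤ) : ℝ := L.u ((i + 1) / 6) + fa (i % 6)

/-- The values. -/
noncomputable def kb (w : ℝ) (i : ℤ) : ℝ := (i / 6 : ℤ) + fb w (i % 6)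

variable (L : Lv) {w : ℝ}

theorem ka_0 (v : ℤ) : ka L (6 * v) = L.u v - 19 / 16 := by
  unfold ka fa
  rw [show (6 * v + 1) / 6 = v by omega, show (6 * v) % 6 = 0 by omega]
  norm_num [sub_eq_add_neg]

theorem ka_1 (v : ℤ) : ka L (6 * v + 1) = L.u v - 1 / 2 := by
  unfold ka fa
  rw [show (6 * v + 1 + 1) / 6 = v by omega, show (6 * v + 1) % 6 = 1 by omega]
  norm_num [sub_eq_add_neg]

theorem ka_2 (v : ℤ) : ka L (6 * v + 2) = L.u v - 3 / 8 := by
  unfold ka fa
  rw [show (6 * v + 2 + 1) / 6 = v by omega, show (6 * v + 2) % 6 = 2 by omega]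
  norm_num [sub_eq_add_neg]

theorem ka_3 (v : ℤ) : ka L (6 * v + 3) = L.u v - 21 / 64 := by
  unfold ka fa
  rw [show (6 * v + 3 + 1) / 6 = v by omega, show (6 * v + 3) % 6 = 3 by omega]
  norm_num [sub_eq_add_neg]

theorem ka_4 (v : ℤ) : ka L (6 * v + 4) = L.u v - 9 / 32 := by
  unfold ka fa
  rw [show (6 * v + 4 + 1) / 6 = v by omega, show (6 * v + 4) % 6 = 4 by omega]
  norm_num [sub_eq_add_neg]

theorem ka_5 (v : ℤ) : ka L (6 * v + 5) = L.u (v + 1) - 11 / 8 := by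
  unfold ka fa
  rw [show (6 * v + 5 + 1) / 6 = v + 1 by omega, show (6 * v + 5) % 6 = 5 by omega]
  norm_num [sub_eq_add_neg]

theorem kb_0 (v : ℤ) : kb w (6 * v) = v - 1 / 4 := by
  unfold kb fb
  rw [show (6 * v) / 6 = v by omega, show (6 * v) % 6 = 0 by omega]
  norm_num [sub_eq_add_neg]

theorem kb_1 (v : ℤ) : kb w (6 * v + 1) = v - w := by
  unfold kb fb
  rw [show (6 * v + 1) / 6 = v by omega, show (6 * v + 1) % 6 = 1 by omega]
  norm_num [sub_eq_add_neg]

theorem kb_2 (v : ℤ) : kb w (6 * v + 2) = v + w := by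
  unfold kb fb
  rw [show (6 * v + 2) / 6 = v by omega, show (6 * v + 2) % 6 = 2 by omega]
  norm_num [sub_eq_add_neg]

theorem kb_3 (v : ℤ) : kb w (6 * v + 3) = v + 1 / 4 := by
  unfold kb fb
  rw [show (6 * v + 3) / 6 = v by omega, show (6 * v + 3) % 6 = 3 by omega]
  norm_num [sub_eq_add_neg]

theorem kb_4 (v : ℤ) : kb w (6 * v + 4) = v + (1 / 2 - w) := by
  unfold kb fb
  rw [show (6 * v + 4) / 6 = v by omega, show (6 * v + 4) % 6 = 4 by omega]
  norm_num

theorem kb_5 (v : ℤ) : kb w (6 * v + 5) = v + (1 / 2 + w) := by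
  unfold kb fb
  rw [show (6 * v + 5) / 6 = v by omega, show (6 * v + 5) % 6 = 5 by omega]
  norm_num

/-- Use `strictMono_int_of_lt_succ`; `L.M_le_u_succ`, `L.M = 16 q + 15`. -/
theorem ka_strictMono : StrictMono (ka L) := by
  refine strictMono_int_of_lt_succ fun i => ?_
  have hgap : ∀ v, (L.u v : ℝ) + 15 ≤ L.u (v + 1) := by
    intro v
    have h1 := L.M_le_u_succ v
    have h2 := L.q_pos
    have h3 : L.M = 16 * L.q + 15 := rfl
    have h4 : L.u v + 15 ≤ L.u (v + 1) := by omega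
    exact_mod_cast h4
  rcases (⟨i / 6, by omega⟩ : ∃ v : ℤ, i = 6 * v ∨ i = 6 * v + 1 ∨ i = 6 * v + 2 ∨
    i = 6 * v + 3 ∨ i = 6 * v + 4 ∨ i = 6 * v + 5) with ⟨v, rfl | rfl | rfl | rfl | rfl | rfl⟩
  · rw [ka_0, ka_1]; linarith
  · rw [ka_1, show 6 * v + 1 + 1 = 6 * v + 2 by ring, ka_2]; linarith
  · rw [ka_2, show 6 * v + 2 + 1 = 6 * v + 3 by ring, ka_3]; linarith
  · rw [ka_3, show 6 * v + 3 + 1 = 6 * v + 4 by ring, ka_4]; linarith
  · rw [ka_4, show 6 * v + 4 + 1 = 6 * v + 5 by ring, ka_5]; linarith [hgap v]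
  · rw [ka_5, show 6 * v + 5 + 1 = 6 * (v + 1) by ring, ka_0]; linarith

theorem kb_strictMono (h0 : 0 < w) (h1 : w ≤ 1 / 16) : StrictMono (kb w) := by
  refine strictMono_int_of_lt_succ fun i => ?_
  rcases (⟨i / 6, by omega⟩ : ∃ v : ℤ, i = 6 * v ∨ i = 6 * v + 1 ∨ i = 6 * v + 2 ∨
    i = 6 * v + 3 ∨ i = 6 * v + 4 ∨ i = 6 * v + 5) with ⟨v, rfl | rfl | rfl | rfl | rfl | rfl⟩
  · rw [kb_0, kb_1]; linarith
  · rw [kb_1, show 6 * v + 1 + 1 = 6 * v + 2 by ring, kb_2]; linarith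
  · rw [kb_2, show 6 * v + 2 + 1 = 6 * v + 3 by ring, kb_3]; linarith
  · rw [kb_3, show 6 * v + 3 + 1 = 6 * v + 4 by ring, kb_4]; linarith
  · rw [kb_4, show 6 * v + 4 + 1 = 6 * v + 5 by ring, kb_5]; linarith
  · rw [kb_5, show 6 * v + 5 + 1 = 6 * (v + 1) by ring, kb_0]; push_cast; linarith

theorem ka_add_q (i c : ℤ) : ka L (i + 6 * (c * L.q)) = ka L i + c * L.next.q := by
  unfold ka
  rw [show (i + 6 * (c * L.q) + 1) / 6 = (i + 1) / 6 + c * L.q by omega,
    show (i + 6 * (c * L.q)) % 6 = i % 6 by omega, L.u_add_q]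
  push_cast
  ring

theorem kb_add (i c : ℤ) : kb w (i + 6 * c) = kb w i + c := by
  unfold kb
  rw [show (i + 6 * c) / 6 = i / 6 + c by omega, show (i + 6 * c) % 6 = i % 6 by omega]
  push_cast
  ring

/-- Off the exceptional index the arcs are permuted by the rotation. -/
theorem u_add_p_of_ne {j : ℤ} (h : ∀ c : ℤ, j ≠ L.ex + c * L.q) :
    L.u (j + L.p) = L.u j + L.next.p := by
  refine L.u_add_p (lt_of_le_of_ne (L.tm_le j) fun h2 => ?_)
  obtain ⟨c, hc⟩ := L.eq_ex h2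
  exact h c hc

/-- The rotation shifts the knots, except for those of the exceptional arc
(the numbers `6 e - 1, …, 6 e + 4` modulo `6 q`). -/
theorem ka_add_p {i : ℤ} (h : ∀ c : ℤ, (i + 1) / 6 ≠ L.ex + c * L.q) :
    ka L (i + 6 * L.p) = ka L i + L.next.p := by
  unfold ka
  rw [show (i + 6 * L.p + 1) / 6 = (i + 1) / 6 + L.p by omega,
    show (i + 6 * L.p) % 6 = i % 6 by omega, u_add_p_of_ne L h]
  push_cast
  ring

theorem ka_surj : Function.Surjective (pl (ka L)) := by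
  refine pl_surjective (ka_strictMono L) (N := 6 * L.q) (T := L.next.q)
    (by have := L.q_pos; omega) (by exact_mod_cast L.next.q_pos) fun i => ?_
  have := ka_add_q L i 1
  rw [one_mul, Int.cast_one, one_mul] at this
  exact this

theorem kb_surj (h0 : 0 < w) (h1 : w ≤ 1 / 16) : Function.Surjective (pl (kb w)) := by
  refine pl_surjective (kb_strictMono h0 h1) (N := 6) (T := 1) (by norm_num) one_pos fun i => ?_
  have := kb_add (w := w) i 1
  rw [mul_one, Int.cast_one] at this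
  exact this

/-- The map of the labels, from the slots of picture `k + 1` to the slots of picture `k`. -/
noncomputable def eta (h0 : 0 < w) (h1 : w ≤ 1 / 16) : ℝ ≃o ℝ :=
  (plIso (ka L) (ka_strictMono L) (ka_surj L)).symm.trans
    (plIso (kb w) (kb_strictMono h0 h1) (kb_surj h0 h1))

variable (h0 : 0 < w) (h1 : w ≤ 1 / 16)

/-- `eta` is determined by the common parameter. -/
theorem eta_pl (s : ℝ) : eta L h0 h1 (pl (ka L) s) = pl (kb w) s := by
  have h2 : (plIso (ka L) (ka_strictMono L) (ka_surj L)).symm (pl (ka L) s) = s :=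
    (plIso (ka L) (ka_strictMono L) (ka_surj L)).symm_apply_apply s
  show plIso (kb w) (kb_strictMono h0 h1) (kb_surj h0 h1)
    ((plIso (ka L) (ka_strictMono L) (ka_surj L)).symm (pl (ka L) s)) = _
  rw [h2, plIso_apply]

theorem eta_ka (i : ℤ) : eta L h0 h1 (ka L i) = kb w i := by
  have := eta_pl L h0 h1 (i : ℝ)
  rwa [pl_int, pl_int] at this

theorem eta_add_q (X : ℝ) (c : ℤ) :
    eta L h0 h1 (X + c * L.next.q) = eta L h0 h1 X + c * L.q := by
  obtain ⟨s, rfl⟩ := ka_surj L X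
  have h2 : pl (ka L) (s + ((6 * (c * L.q) : ℤ) : ℝ)) = pl (ka L) s + c * L.next.q :=
    pl_add (ka_add_q L _ c) (ka_add_q L _ c)
  have h3 : pl (kb w) (s + ((6 * (c * L.q) : ℤ) : ℝ)) = pl (kb w) s + ((c * L.q : ℤ) : ℝ) :=
    pl_add (kb_add _ _) (kb_add _ _)
  rw [← h2, eta_pl, eta_pl, h3]
  push_cast
  ring

/-- Equivariance off the exceptional labels. -/
theorem eta_add_p {X : ℝ} (h : ∀ c : ℤ, X ≤ L.u (L.ex - 1) - 9 / 32 + c * L.next.q ∨
    L.u (L.ex + 1) - 11 / 8 + c * L.next.q ≤ X) :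
    eta L h0 h1 (X + L.next.p) = eta L h0 h1 X + L.p := by
  obtain ⟨s, rfl⟩ := ka_surj L X
  have hs : ∀ c : ℤ, s ≤ ((6 * (L.ex + c * L.q) - 2 : ℤ) : ℝ) ∨
      ((6 * (L.ex + c * L.q) + 5 : ℤ) : ℝ) ≤ s := by
    intro c
    rcases h c with h2 | h2
    · left
      rw [← (pl_strictMono (ka_strictMono L)).le_iff_le, pl_int,
        show 6 * (L.ex + c * L.q) - 2 = 6 * (L.ex - 1 + c * L.q) + 4 by ring, ka_4, L.u_add_q]
      push_cast
      linarith
    · right
      rw [← (pl_strictMono (ka_strictMono L)).le_iff_le, pl_int, ka_5,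
        show L.ex + c * L.q + 1 = L.ex + 1 + c * L.q by ring, L.u_add_q]
      push_cast
      linarith
  have h2 : pl (ka L) (s + ((6 * L.p : ℤ) : ℝ)) = pl (ka L) s + L.next.p := by
    refine pl_add' (ka_add_p L fun c hc => ?_) fun hne => ka_add_p L fun c hc => ?_
    · have h3 : 6 * (L.ex + c * L.q) ≤ ⌊s⌋ + 1 ∧ ⌊s⌋ + 1 < 6 * (L.ex + c * L.q) + 6 := by omega
      rcases hs c with h4 | h4
      · have := Int.floor_mono h4
        rw [Int.floor_intCast] at this
        omega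
      · have := Int.floor_mono h4
        rw [Int.floor_intCast] at this
        omega
    · have h3 : 6 * (L.ex + c * L.q) ≤ ⌊s⌋ + 1 + 1 ∧
          ⌊s⌋ + 1 + 1 < 6 * (L.ex + c * L.q) + 6 := by omega
      have h5 := Int.floor_le s
      have h6 : (⌊s⌋ : ℝ) < s := lt_of_le_of_ne h5 hne
      rcases hs c with h4 | h4
      · have h7 : ((⌊s⌋ : ℤ) : ℝ) < ((6 * (L.ex + c * L.q) - 2 : ℤ) : ℝ) := h6.trans_le h4
        have h8 : ⌊s⌋ < 6 * (L.ex + c * L.q) - 2 := by exact_mod_cast h7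
        omega
      · have := Int.floor_mono h4
        rw [Int.floor_intCast] at this
        omega
  have h3 : pl (kb w) (s + ((6 * L.p : ℤ) : ℝ)) = pl (kb w) s + L.p :=
    pl_add (kb_add _ _) (kb_add _ _)
  rw [← h2, eta_pl, eta_pl, h3]

theorem eta_left (v : ℤ) : eta L h0 h1 (L.u v - 19 / 16) = v - 1 / 4 := by
  rw [← ka_0, eta_ka, kb_0]

theorem eta_right (v : ℤ) : eta L h0 h1 (L.u v - 21 / 64) = v + 1 / 4 := by
  rw [← ka_3, eta_ka, kb_3]

/-- The labels which go to the box `π_v`. -/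
theorem eta_pi {X : ℝ} {v : ℤ} (h2 : L.u v - 1 / 2 ≤ X) (h3 : X ≤ L.u v - 3 / 8) :
    |eta L h0 h1 X - v| ≤ w := by
  have h4 := (eta L h0 h1).monotone h2
  have h5 := (eta L h0 h1).monotone h3
  rw [← ka_1, eta_ka, kb_1] at h4
  rw [← ka_2, eta_ka, kb_2] at h5
  rw [abs_le]
  constructor <;> linarith

/-- The labels which go to the box `α_v`. -/
theorem eta_al {X : ℝ} {v : ℤ} (h2 : L.u v - 9 / 32 ≤ X) (h3 : X ≤ L.u (v + 1) - 11 / 8) :
    |eta L h0 h1 X - (v + 1 / 2)| ≤ w := by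
  have h4 := (eta L h0 h1).monotone h2
  have h5 := (eta L h0 h1).monotone h3
  rw [← ka_4, eta_ka, kb_4] at h4
  rw [← ka_5, eta_ka, kb_5] at h5
  rw [abs_le]
  constructor <;> linarith

/-- Preimages of the column of `π_v`. -/
theorem eta_col {X : ℝ} {v : ℤ} (h : |eta L h0 h1 X - v| ≤ 1 / 16) :
    L.u v - 19 / 16 < X ∧ X < L.u v - 21 / 64 := by
  have h2 := abs_le.1 h
  rw [← (eta L h0 h1).lt_iff_lt, ← (eta L h0 h1).lt_iff_lt (x := X), eta_left, eta_right]
  constructor <;> linarith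

/-- Labels outside the exceptional window have images outside the double sector. -/
theorem eta_ex {X : ℝ} (h : ∀ c : ℤ, 1 ≤ |eta L h0 h1 X - (L.ex - 1 / 4) - c * L.q|) (c : ℤ) :
    X ≤ L.u (L.ex - 1) - 9 / 32 + c * L.next.q ∨ L.u (L.ex + 1) - 11 / 8 + c * L.next.q ≤ X := by
  rcases le_abs.1 (h c) with h2 | h2
  · right
    have h3 := eta_left L h0 h1 (L.ex + 1 + c * L.q)
    have h4 : L.u (L.ex + 1 + c * L.q) - 19 / 16 ≤ X := by
      rw [← (eta L h0 h1).le_iff_le, h3]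
      push_cast
      linarith
    rw [L.u_add_q] at h4
    push_cast at h4
    linarith
  · left
    have h3 := eta_left L h0 h1 (L.ex - 1 + c * L.q)
    have h4 : X ≤ L.u (L.ex - 1 + c * L.q) - 19 / 16 := by
      rw [← (eta L h0 h1).le_iff_le, h3]
      push_cast
      linarith
    rw [L.u_add_q] at h4
    push_cast at h4
    linarith

theorem continuous_eta : Continuous (eta L h0 h1) := (eta L h0 h1).continuous

end St

end Pool.Agent.RAY
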