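import Pool.Agent.RAYH.Beta
import Pool.Agent.RAYH.Eta

/-!
# RAYH: the step homeomorphism (owner of the proofs: helper24)

`Ps = mB * mA` is the map `Ψ`, `g = mC * mE * mV * Ps⁻¹`.  Everything is normalised: one turn of
picture `k + 1` is `x ↦ x + 1`, the slot coordinate is `q' x`.
-/

set_option autoImplicit false

namespace Pool.Agent.RAY

namespace St

variable (L : Lv)

/-- `(x, y) ↦ (x + σ y / q', y)`. -/
noncomputable def mA : HH.Horz where
  h y x := x + sg L y / L.next.q
  cont := by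
    have := continuous_sg L
    fun_prop
  mono y a b h := by simpa using h
  turn y x := by ring

theorem mB_mono (X : ℝ) : StrictMono fun y : ℝ => y - 1 / 2 * ch y * be L X (X - sg L y) := by
  -- on `y ≥ 0` the function `β` is decreasing, on `y ≤ 1/8` it is constant
  have k1 : ∀ s t : ℝ, 0 ≤ s → s < t → s - 1 / 2 * ch s * be L X (X - sg L s)
      < t - 1 / 2 * ch t * be L X (X - sg L t) := by
    intro s t hs hst
    rw [ch_eq_one hs, ch_eq_one (hs.trans hst.le)]
    have h2 : be L X (X - sg L t) ≤ be L X (X - sg L s) :=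
      be_anti L X (by have := sg_anti L hst.le; linarith)
    linarith
  have k2 : ∀ s t : ℝ, t ≤ 1 / 8 → s < t → s - 1 / 2 * ch s * be L X (X - sg L s)
      < t - 1 / 2 * ch t * be L X (X - sg L t) := by
    intro s t ht hst
    rw [sg_bot L ht, sg_bot L (hst.le.trans ht)]
    have h2 := ch_sub_le hst.le
    have h3 := ch_mono hst.le
    have h4 := be_nonneg L X (X - (L.next.q + 15 / 16))
    have h5 := be_le_one L X (X - (L.next.q + 15 / 16))
    nlinarith
  intro s t hst
  rcases le_or_gt 0 s with h | h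
  · exact k1 s t h hst
  · rcases le_or_gt t 0 with h' | h'
    · exact k2 s t (by linarith) hst
    · exact (k2 s 0 (by norm_num) h).trans (k1 0 t le_rfl h')

theorem half_mul_bound {a b : ℝ} (ha : 0 ≤ a) (ha1 : a ≤ 1) (hb : 0 ≤ b) (hb1 : b ≤ 1) :
    0 ≤ 1 / 2 * a * b ∧ 1 / 2 * a * b ≤ 1 / 2 := by
  constructor
  · positivity
  · nlinarith

/-- `(x, y) ↦ (x, y - χ(y) β(q' x, q' x - σ y) / 2)`. -/
noncomputable def mB : HH.Vert where
  V x y := y - 1 / 2 * ch y * be L (L.next.q * x) (L.next.q * x - sg L y)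
  cont := by
    have h1 : Continuous fun z : Pl => be L (L.next.q * z.1) (L.next.q * z.1 - sg L z.2) := by
      have h2 := continuous_sg L
      have h3 : Continuous fun z : Pl => (L.next.q * z.1, L.next.q * z.1 - sg L z.2) := by
        fun_prop
      exact (continuous_be L).comp h3
    have h4 := continuous_ch
    fun_prop
  mono x := mB_mono L _
  per x y := by
    have h1 := be_add_q L (L.next.q * x) (L.next.q * x - sg L y) 1
    rw [Int.cast_one, one_mul] at h1
    have h2 : L.next.q * (x + 1) - sg L y = L.next.q * x - sg L y + L.next.q := by ring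
    rw [← h1, h2, mul_add, mul_one]
  bound := by
    refine ⟨1 / 2, fun x y => ?_⟩
    have := half_mul_bound (ch_nonneg y) (ch_le_one y)
      (be_nonneg L (L.next.q * x) (L.next.q * x - sg L y))
      (be_le_one L (L.next.q * x) (L.next.q * x - sg L y))
    rw [abs_le]
    constructor <;> linarith

theorem mV_mono (X : ℝ) : StrictMono fun y : ℝ => y - 1 / 2 * ch3 y * lm L X := by
  intro s t hst
  have h2 := ch3_sub_le hst.le
  have h4 := lm_nonneg L X
  have h5 := lm_le L X
  simp only
  nlinarith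

/-- `(x, y) ↦ (x, y - χ₃(y) λ(q' x) / 2)`. -/
noncomputable def mV : HH.Vert where
  V x y := y - 1 / 2 * ch3 y * lm L (L.next.q * x)
  cont := by
    have h1 : Continuous fun z : Pl => lm L (L.next.q * z.1) :=
      (continuous_lm L).comp (by fun_prop)
    have h4 := continuous_ch3
    fun_prop
  mono x := mV_mono L _
  per x y := by
    have h1 := lm_add_q L (L.next.q * x) 1
    rw [Int.cast_one, one_mul] at h1
    rw [← h1, mul_add, mul_one]
  bound := by
    refine ⟨1 / 2, fun x y => ?_⟩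
    have := half_mul_bound (ch3_nonneg y) (ch3_le_one y)
      (lm_nonneg L (L.next.q * x)) ((lm_le L (L.next.q * x)).trans (by norm_num))
    rw [abs_le]
    constructor <;> linarith

variable {w : ℝ} (h0 : 0 < w) (h1 : w ≤ 1 / 16)

/-- The map of the labels. -/
noncomputable def mE : HH.Horz where
  h _ x := eta L h0 h1 (L.next.q * x) / L.q
  cont := by
    have := continuous_eta L h0 h1
    fun_prop
  mono y a b h := by
    have hq := q_pos' L
    have hq' := q_pos' L.next
    exact div_lt_div_of_pos_right ((eta L h0 h1).strictMono (by nlinarith)) hq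
  turn y x := by
    have hq := q_pos' L
    have h2 := eta_add_q L h0 h1 (L.next.q * x) 1
    rw [Int.cast_one, one_mul, one_mul] at h2
    rw [mul_add, mul_one, h2]
    field_simp

/-- The compression of the heights. -/
noncomputable def mC : HH.Vert where
  V _ y := comp w y
  cont := (continuous_comp w).comp continuous_snd
  mono _ := comp_strictMono h0 h1
  per _ _ := rfl
  bound := ⟨1, fun _ y => comp_bound w h0 h1 y⟩

/-- The map `Ψ`. -/
noncomputable def Ps : HH := (mB L).toHH * (mA L).toHH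

theorem Ps_apply (z : Pl) : Ps L z = (z.1 + sg L z.2 / L.next.q,
    z.2 - 1 / 2 * ch z.2 * be L (L.next.q * z.1 + sg L z.2) (L.next.q * z.1)) := by
  have hq' := q_pos' L.next
  have h1 : L.next.q * (z.1 + sg L z.2 / L.next.q) = L.next.q * z.1 + sg L z.2 := by
    field_simp
  simp only [Ps, HH.mul_apply, HH.Horz.toHH_apply, HH.Vert.toHH_apply, mA, mB]
  rw [h1, add_sub_cancel_right]

/-- The step homeomorphism. -/
noncomputable def gg : HH := (mC h0 h1).toHH * (mE L h0 h1).toHH * (mV L).toHH * (Ps L)⁻¹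

/-- The fundamental formula. -/
theorem gg_Ps (z : Pl) : gg L h0 h1 (Ps L z) = (eta L h0 h1 (L.next.q * z.1) / L.q,
    comp w (z.2 - 1 / 2 * ch3 z.2 * lm L (L.next.q * z.1))) := by
  simp [gg, mC, mE, mV]

/-- Every point is `Ψ` of a point. -/
theorem exists_Ps (z : Pl) : ∃ z' : Pl, Ps L z' = z := ⟨(Ps L)⁻¹ z, by simp⟩

/-- For `y ≥ 1/4` the map `Ψ` is the identity. -/
theorem Ps_top {z : Pl} (h : 1 / 4 ≤ z.2) : Ps L z = z := by
  rw [Ps_apply, sg_top L h, zero_div, add_zero, add_zero, be_self, mul_zero, sub_zero]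

theorem Ps_bot {z : Pl} (h : z.2 ≤ -1) :
    Ps L z = (z.1 + (L.next.q + 15 / 16) / L.next.q, z.2) := by
  rw [Ps_apply, sg_bot L (by linarith), ch_eq_zero h]
  simp

theorem gg_top {z : Pl} (h : 1 / 4 ≤ z.2) : gg L h0 h1 z = (eta L h0 h1 (L.next.q * z.1) / L.q,
    comp w (z.2 - 1 / 2 * ch3 z.2 * lm L (L.next.q * z.1))) := by
  have := gg_Ps L h0 h1 z
  rwa [Ps_top L h] at this

theorem gg_bot {z : Pl} (h : z.2 ≤ -1) : gg L h0 h1 z =
    (eta L h0 h1 (L.next.q * z.1 - (L.next.q + 15 / 16)) / L.q, comp w z.2) := by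
  have hq' := q_pos' L.next
  have h2 := gg_Ps L h0 h1 (z.1 - (L.next.q + 15 / 16) / L.next.q, z.2)
  rw [Ps_bot L (z := (z.1 - (L.next.q + 15 / 16) / L.next.q, z.2)) h] at h2
  simp only [sub_add_cancel] at h2
  rw [h2, ch3_eq_zero (Or.inl h), mul_zero, zero_mul, sub_zero]
  congr 3
  field_simp

/-- `Ψ` does not raise the heights, and lowers them by at most `1/2`. -/
theorem Ps_le (z : Pl) : (Ps L z).2 ≤ z.2 := by
  rw [Ps_apply]
  have := mul_nonneg (ch_nonneg z.2) (be_nonneg L (L.next.q * z.1 + sg L z.2) (L.next.q * z.1))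
  simp only
  linarith

/-- A strictly increasing function fixing `-1` and `1` preserves the strip. -/
theorem strip_of_mono {f : ℝ → ℝ} (hf : StrictMono f) (hn : f (-1) = -1) (hp : f 1 = 1) {y : ℝ} :
    |f y| ≤ 1 ↔ |y| ≤ 1 := by
  have h1 : -1 ≤ f y ↔ -1 ≤ y := by
    conv_lhs => rw [← hn]
    exact hf.le_iff_le
  have h2 : f y ≤ 1 ↔ y ≤ 1 := by
    conv_lhs => rw [← hp]
    exact hf.le_iff_le
  rw [abs_le, abs_le, h1, h2]

/-- The strip `|y| ≤ 1` is preserved by `Ψ`. -/
theorem Ps_strip {z : Pl} : |(Ps L z).2| ≤ 1 ↔ |z.2| ≤ 1 := by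
  have h1 : (Ps L z).2 = z.2 - 1 / 2 * ch z.2 * be L (L.next.q * z.1 + sg L z.2)
      (L.next.q * z.1 + sg L z.2 - sg L z.2) := by
    rw [Ps_apply, add_sub_cancel_right]
  rw [h1]
  refine strip_of_mono (f := fun y => y - 1 / 2 * ch y * be L (L.next.q * z.1 + sg L z.2)
      (L.next.q * z.1 + sg L z.2 - sg L y)) (mB_mono L _) ?_ ?_
  · rw [ch_eq_zero le_rfl]
    ring
  · rw [sg_top L (by norm_num : (1 / 4 : ℝ) ≤ 1), sub_zero, be_self]
    ring

/-- The strip `|y| ≤ 1` is preserved by `V`. -/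
theorem mV_strip {X y : ℝ} : |y - 1 / 2 * ch3 y * lm L X| ≤ 1 ↔ |y| ≤ 1 := by
  refine strip_of_mono (f := fun y => y - 1 / 2 * ch3 y * lm L X) (mV_mono L X) ?_ ?_
  · rw [ch3_eq_zero (Or.inl le_rfl)]
    ring
  · rw [ch3_eq_zero (Or.inr le_rfl)]
    ring

/-- The conjugated rotation on the labels. -/
noncomputable def rho (x : ℝ) : ℝ :=
  (eta L h0 h1 ((eta L h0 h1).symm (L.q * x) + L.next.p) - L.p) / L.q

/-- `ρ` as a member of `HH`. -/
noncomputable def mR : HH := (HH.rot (L.p / L.q))⁻¹ * (mE L h0 h1).toHH *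
  HH.rot (L.next.p / L.next.q) * (mE L h0 h1).toHH⁻¹

theorem rot_inv_apply (a : ℝ) (z : Pl) : (HH.rot a)⁻¹ z = (z.1 - a, z.2) := by
  apply (HH.rot a).injective
  rw [HH.apply_inv_self, HH.rot_apply]
  simp

theorem mE_inv_apply (z : Pl) : (mE L h0 h1).toHH⁻¹ z =
    ((eta L h0 h1).symm (L.q * z.1) / L.next.q, z.2) := by
  have hq := q_pos' L
  have hq' := q_pos' L.next
  apply (mE L h0 h1).toHH.injective
  rw [HH.apply_inv_self]
  simp only [HH.Horz.toHH_apply, mE]
  rw [mul_div_cancel₀ _ hq'.ne', OrderIso.apply_symm_apply]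
  ext <;> simp
  field_simp

theorem mR_apply (z : Pl) : mR L h0 h1 z = (rho L h0 h1 z.1, z.2) := by
  have hq := q_pos' L
  have hq' := q_pos' L.next
  simp only [mR, HH.mul_apply]
  rw [mE_inv_apply, HH.rot_apply]
  simp only [HH.Horz.toHH_apply, mE, rot_inv_apply, rho]
  congr 1
  rw [mul_add, mul_div_cancel₀ _ hq'.ne', mul_div_cancel₀ _ hq'.ne', sub_div]

theorem rho_strictMono : StrictMono (rho L h0 h1) := by
  intro a b hab
  have hq := q_pos' L
  unfold rho
  refine div_lt_div_of_pos_right ?_ hq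
  have h2 : (eta L h0 h1).symm (L.q * a) < (eta L h0 h1).symm (L.q * b) :=
    (eta L h0 h1).symm.strictMono (by nlinarith)
  have h3 := (eta L h0 h1).strictMono (by linarith :
    (eta L h0 h1).symm (L.q * a) + L.next.p < (eta L h0 h1).symm (L.q * b) + L.next.p)
  linarith

theorem continuous_rho : Continuous (rho L h0 h1) := by
  have h2 := continuous_eta L h0 h1
  have h3 : Continuous (eta L h0 h1).symm := (eta L h0 h1).symm.continuous
  unfold rho
  fun_prop

theorem rho_turn (x : ℝ) : rho L h0 h1 (x + 1) = rho L h0 h1 x + 1 := by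
  have h2 := (mR L h0 h1).turn (x, 0)
  rw [mR_apply, mR_apply] at h2
  exact congrArg Prod.fst h2

/-- The interpolation between `ρ` (for `|y| ≤ 1/16`) and the identity (for `|y| ≥ 1/8`). -/
noncomputable def mK : HH.Horz where
  h y x := (1 - cl (16 * |y| - 1)) * rho L h0 h1 x + cl (16 * |y| - 1) * x
  cont := by
    have h2 := continuous_rho L h0 h1
    have h3 := continuous_cl
    fun_prop
  mono y a b hab := by
    have h2 := rho_strictMono L h0 h1 hab
    have h3 := cl_nonneg (16 * |y| - 1)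
    have h4 := cl_le_one (16 * |y| - 1)
    simp only
    rcases eq_or_lt_of_le h3 with h5 | h5
    · rw [← h5]; linarith
    · nlinarith
  turn y x := by
    rw [rho_turn]
    ring

/-- The correction `κ`. -/
noncomputable def kap : HH := (mR L h0 h1)⁻¹ * (mK L h0 h1).toHH

/-- The map `h` of the step. -/
noncomputable def hh : HH :=
  (HH.rot (L.p / L.q))⁻¹ * gg L h0 h1 * HH.rot (L.next.p / L.next.q) * (gg L h0 h1)⁻¹ *
    kap L h0 h1

end St

end Pool.Agent.RAY
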