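import Pool.Agent.RAYH.Base

/-!
# RAYH: windows (owner of the proofs: helper87)

`Sp n`: `n` is in the semigroup or `n ≥ q'`.  `vw w` is the greatest `j` with `Sp (w - u j)`:
the arcs `u j`, `j ≤ vw w`, pass below the slot `w` (or have ended), the others pass above it.
-/

set_option autoImplicit false

namespace Pool.Agent.RAY

namespace Lv

variable (L : Lv)

/-- The semigroup, extended by everything from `q'` on. -/
def Sp (n : ℤ) : Prop := L.Sg n ∨ L.next.q ≤ n

theorem Sp.nonneg {L : Lv} {n : ℤ} (h : L.Sp n) : 0 ≤ n := by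
  rcases h with h | h
  · exact h.nonneg
  · exact L.next.q_pos.le.trans h

theorem Sp.add {L : Lv} {s t : ℤ} (hs : L.Sp s) (ht : L.Sg t) : L.Sp (s + t) := by
  rcases hs with h | h
  · left; exact h.add ht
  · right; have := ht.nonneg; omega

/-- The set of the arcs below the slot `w` is a down-set. -/
theorem Sp_down {w i j : ℤ} (hij : i ≤ j) (h : L.Sp (w - L.u j)) : L.Sp (w - L.u i) := by
  have h1 := h.add (L.Sg_u hij)
  rwa [show w - L.u j + (L.u j - L.u i) = w - L.u i by ring] at h1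

theorem exists_vw (w : ℤ) : ∃ v : ℤ, ∀ j : ℤ, L.Sp (w - L.u j) ↔ j ≤ v := by
  have hM := L.M_pos
  have hu0 : ∀ j : ℤ, 0 ≤ j → j + L.u 0 ≤ L.u j := by
    intro j hj
    obtain ⟨n, rfl⟩ := Int.eq_ofNat_of_zero_le hj
    have h1 := (L.u_diff 0 n).1
    rw [zero_add] at h1
    nlinarith
  have hu1 : ∀ j : ℤ, 0 ≤ j → L.u (-j) ≤ L.u 0 - j := by
    intro j hj
    obtain ⟨n, rfl⟩ := Int.eq_ofNat_of_zero_le hj
    have h1 := (L.u_diff (-(n : ℤ)) n).1
    rw [neg_add_cancel] at h1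
    nlinarith
  have hex : ∃ j : ℤ, L.Sp (w - L.u j) := by
    refine ⟨-(max 0 (L.next.q + L.u 0 - w)), Or.inr ?_⟩
    have h1 := hu1 (max 0 (L.next.q + L.u 0 - w)) (le_max_left _ _)
    have h2 := le_max_right 0 (L.next.q + L.u 0 - w)
    omega
  have hbd : ∃ b : ℤ, ∀ z : ℤ, L.Sp (w - L.u z) → z ≤ b := by
    refine ⟨max 0 (w - L.u 0), fun z hz => ?_⟩
    have h1 := hz.nonneg
    rcases le_or_gt z 0 with h2 | h2
    · exact h2.trans (le_max_left _ _)
    · have h3 := hu0 z h2.le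
      have h4 := le_max_right 0 (w - L.u 0)
      omega
  classical
  obtain ⟨j, h1, h2⟩ := Int.exists_greatest_of_bdd hbd hex
  exact ⟨j, fun i => ⟨h2 i, fun h => L.Sp_down h h1⟩⟩

/-- The window index of the slot `w`. -/
noncomputable def vw (w : ℤ) : ℤ := (L.exists_vw w).choose

theorem vw_spec (w j : ℤ) : L.Sp (w - L.u j) ↔ j ≤ L.vw w := (L.exists_vw w).choose_spec j

theorem vw_eq_of {w v : ℤ} (h : ∀ j : ℤ, L.Sp (w - L.u j) ↔ j ≤ v) : L.vw w = v := by
  refine le_antisymm ?_ ?_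
  · exact (h _).1 ((L.vw_spec w _).2 le_rfl)
  · exact (L.vw_spec w _).1 ((h _).2 le_rfl)

/-- It suffices to test two neighbours. -/
theorem vw_eq_of' {w j : ℤ} (h1 : L.Sp (w - L.u j)) (h2 : ¬ L.Sp (w - L.u (j + 1))) :
    L.vw w = j := by
  rw [L.vw_spec] at h1 h2
  omega

theorem vw_add_q (w c : ℤ) : L.vw (w + c * L.next.q) = L.vw w + c * L.q := by
  apply L.vw_eq_of'
  · rw [L.u_add_q, show w + c * L.next.q - (L.u (L.vw w) + c * L.next.q) =
      w - L.u (L.vw w) by ring, L.vw_spec]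
  · rw [show L.vw w + c * L.q + 1 = (L.vw w + 1) + c * L.q by ring, L.u_add_q,
      show w + c * L.next.q - (L.u (L.vw w + 1) + c * L.next.q) = w - L.u (L.vw w + 1) by ring,
      L.vw_spec]
    omega

theorem u_vw_le (w : ℤ) : L.u (L.vw w) ≤ w := by
  have := ((L.vw_spec w _).2 le_rfl).nonneg
  omega

theorem vw_u (j : ℤ) : L.vw (L.u j) = j := by
  apply L.vw_eq_of'
  · rw [sub_self]; exact Or.inl L.Sg_zero
  · intro h
    have h1 := h.nonneg
    have h2 := L.M_le_u_succ j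
    have h3 := L.M_pos
    omega

/-- `q' - M` and `q' - M - 1` are in the semigroup. -/
theorem Sg_next_q_sub_M {d : ℤ} (hd : d = L.M ∨ d = L.M + 1) : L.Sg (L.next.q - d) := by
  have h1 := L.hr
  have h2 := L.hrq
  have h3 := L.M_pos
  refine ⟨L.q - 1, by omega, ?_, ?_⟩
  · rw [next_q]; rcases hd with rfl | rfl <;> nlinarith
  · rw [next_q]; rcases hd with rfl | rfl <;> nlinarith

theorem vw_ne_q (w : ℤ) : w - L.u (L.vw w) ≠ L.next.q := by
  intro h
  have h1 : L.Sp (w - L.u (L.vw w + 1)) := by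
    left
    have h2 := L.Sg_next_q_sub_M (L.u_succ (L.vw w))
    rwa [← h, show w - L.u (L.vw w) - (L.u (L.vw w + 1) - L.u (L.vw w)) =
      w - L.u (L.vw w + 1) by ring] at h2
  rw [L.vw_spec] at h1
  omega

/-- A slot is raised or at the bottom. -/
theorem raised_or_bottom (w : ℤ) :
    (L.Sg (w - L.u (L.vw w)) ∧ w - L.u (L.vw w) ≤ L.next.q - 1) ∨
      L.next.q + 1 ≤ w - L.u (L.vw w) := by
  have h1 := L.vw_ne_q w
  rcases (L.vw_spec w _).2 le_rfl with h | h
  · by_cases h2 : w - L.u (L.vw w) ≤ L.next.q - 1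
    · exact Or.inl ⟨h, h2⟩
    · right; omega
  · right; omega

/-- The next arc is to the right of `w - q'`. -/
theorem lt_u_vw_succ (w : ℤ) : w - L.next.q < L.u (L.vw w + 1) := by
  by_contra h
  push Not at h
  have h1 : L.Sp (w - L.u (L.vw w + 1)) := Or.inr (by omega)
  rw [L.vw_spec] at h1
  omega

/-! ### The exceptional arc -/

/-- `u (j + p) = u j + p'` off the exceptional arc. -/
theorem u_add_p_of_ne {j : ℤ} (h : ∀ c : ℤ, j ≠ L.ex + c * L.q) :
    L.u (j + L.p) = L.u j + L.next.p := by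
  refine L.u_add_p (lt_of_le_of_ne (L.tm_le j) fun h1 => ?_)
  obtain ⟨c, hc⟩ := L.eq_ex h1
  exact h c hc

theorem three_le_q : 3 ≤ L.q := by
  have h1 := L.hr
  have h2 := L.hrq
  have h3 := L.odd
  omega

/-- The neighbours of the exceptional index are not exceptional. -/
theorem ex_add_ne {n : ℤ} (hn : n = 1 ∨ n = -1) (c : ℤ) : L.ex + n ≠ L.ex + c * L.q := by
  intro h
  have h1 := L.three_le_q
  have h2 : n = c * L.q := by omega
  have h3 : c ≠ 0 := by rintro rfl; rcases hn with rfl | rfl <;> simp at h2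
  rcases lt_or_gt_of_ne h3 with h4 | h4
  · have : c * L.q ≤ -L.q := by nlinarith
    rcases hn with rfl | rfl <;> omega
  · have : L.q ≤ c * L.q := by nlinarith
    rcases hn with rfl | rfl <;> omega

theorem u_ex_sub : L.u L.ex - L.u (L.ex - 1) = L.M + 1 := by
  have h1 := L.u_add_p_of_ne (j := L.ex - 1) (by
    intro c; have := L.ex_add_ne (n := -1) (Or.inr rfl) c; rwa [← sub_eq_add_neg] at this)
  have h2 := L.u_ex_add_p
  have h3 := L.u_succ (L.ex - 1)
  have h4 := L.u_succ (L.ex - 1 + L.p)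
  rw [show L.ex - 1 + L.p + 1 = L.ex + L.p by ring] at h4
  rw [sub_add_cancel] at h3
  omega

theorem u_ex_add_sub : L.u (L.ex + 1) - L.u L.ex = L.M := by
  have h1 := L.u_add_p_of_ne (j := L.ex + 1) (by
    intro c; exact L.ex_add_ne (n := 1) (Or.inl rfl) c)
  have h2 := L.u_ex_add_p
  have h3 := L.u_succ L.ex
  have h4 := L.u_succ (L.ex + L.p)
  rw [show L.ex + L.p + 1 = L.ex + 1 + L.p by ring] at h4
  omega

theorem u_ex_add_p' (c : ℤ) :
    L.u (L.ex + c * L.q + L.p) = L.u (L.ex + c * L.q) + L.next.p - 1 := by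
  rw [show L.ex + c * L.q + L.p = (L.ex + L.p) + c * L.q by ring, L.u_add_q, L.u_add_q]
  have := L.u_ex_add_p
  omega

/-- Off the exceptional arc the windows are permuted by the rotation. -/
theorem vw_add_p {w : ℤ} (h : ∀ c : ℤ, L.vw w ≠ L.ex + c * L.q ∧ L.vw w ≠ L.ex - 1 + c * L.q) :
    L.vw (w + L.next.p) = L.vw w + L.p := by
  have h1 : ∀ c : ℤ, L.vw w + 1 ≠ L.ex + c * L.q := fun c h' => (h c).2 (by omega)
  apply L.vw_eq_of'
  · rw [L.u_add_p_of_ne fun c => (h c).1,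
      show w + L.next.p - (L.u (L.vw w) + L.next.p) = w - L.u (L.vw w) by ring, L.vw_spec]
  · rw [show L.vw w + L.p + 1 = (L.vw w + 1) + L.p by ring, L.u_add_p_of_ne h1,
      show w + L.next.p - (L.u (L.vw w + 1) + L.next.p) = w - L.u (L.vw w + 1) by ring,
      L.vw_spec]
    omega

/-- At the exceptional arc the windows stay near it. -/
theorem vw_add_p' {w c : ℤ} (h : L.vw w = L.ex + c * L.q ∨ L.vw w = L.ex - 1 + c * L.q) :
    L.vw (w + L.next.p) = L.ex + c * L.q + L.p ∨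
      L.vw (w + L.next.p) = L.ex - 1 + c * L.q + L.p := by
  have hne1 : ∀ c' : ℤ, L.ex - 1 + c * L.q ≠ L.ex + c' * L.q := by
    intro c' h'
    apply L.ex_add_ne (n := -1) (Or.inr rfl) (c' - c)
    linarith
  have hne2 : ∀ c' : ℤ, L.ex + 1 + c * L.q ≠ L.ex + c' * L.q := by
    intro c' h'
    apply L.ex_add_ne (n := 1) (Or.inl rfl) (c' - c)
    linarith
  have h1 : L.ex - 1 + c * L.q + L.p ≤ L.vw (w + L.next.p) := by
    rw [← L.vw_spec, L.u_add_p_of_ne hne1,
      show w + L.next.p - (L.u (L.ex - 1 + c * L.q) + L.next.p) =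
        w - L.u (L.ex - 1 + c * L.q) by ring, L.vw_spec]
    omega
  have h2 : ¬ L.ex + 1 + c * L.q + L.p ≤ L.vw (w + L.next.p) := by
    rw [← L.vw_spec, L.u_add_p_of_ne hne2,
      show w + L.next.p - (L.u (L.ex + 1 + c * L.q) + L.next.p) =
        w - L.u (L.ex + 1 + c * L.q) by ring, L.vw_spec]
    omega
  omega

end Lv

end Pool.Agent.RAY
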